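import Pool.Agent.H99.KST.AUB
import Pool.Agent.H99.KAL.OFF

/-!
# Norm rounding (row NR of K_STEP; K_NORM of helper17)

A norm on a finite dimensional space is given as a seminorm `N` with `IsN N`. `Dl N N' t` means
that the ratio of the two norms is between `exp (-t)` and `exp t` everywhere.
-/

set_option autoImplicit false

namespace Pool.KST

open Module Finset

/-- A seminorm which is a norm. -/
def IsN {V : Type} [AddCommGroup V] [Module ℝ V] (N : Seminorm ℝ V) : Prop := ∀ x, N x = 0 → x = 0

/-- The logarithmic distance is at most `t`. -/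
def Dl {V : Type} [AddCommGroup V] [Module ℝ V] (N N' : Seminorm ℝ V) (t : ℝ) : Prop :=
  ∀ x, N x ≤ Real.exp t * N' x ∧ N' x ≤ Real.exp t * N x

section basics

variable {V : Type} [AddCommGroup V] [Module ℝ V]

lemma Dl.symm {N N' : Seminorm ℝ V} {t : ℝ} (h : Dl N N' t) : Dl N' N t := fun x => (h x).symm

lemma Dl.trans {N N' N'' : Seminorm ℝ V} {t t' : ℝ} (h : Dl N N' t) (h' : Dl N' N'' t') :
    Dl N N'' (t + t') := by
  intro x
  rw [Real.exp_add]
  have e1 := Real.exp_pos t
  have e2 := Real.exp_pos t'
  constructor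
  · calc N x ≤ Real.exp t * N' x := (h x).1
      _ ≤ Real.exp t * (Real.exp t' * N'' x) := mul_le_mul_of_nonneg_left (h' x).1 e1.le
      _ = _ := by ring
  · calc N'' x ≤ Real.exp t' * N' x := (h' x).2
      _ ≤ Real.exp t' * (Real.exp t * N x) := mul_le_mul_of_nonneg_left (h x).2 e2.le
      _ = _ := by ring

lemma Dl.mono {N N' : Seminorm ℝ V} {t t' : ℝ} (h : Dl N N' t) (ht : t ≤ t') : Dl N N' t' := by
  intro x
  have e := Real.exp_le_exp.mpr ht
  exact ⟨(h x).1.trans (mul_le_mul_of_nonneg_right e (apply_nonneg N' x)),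
    (h x).2.trans (mul_le_mul_of_nonneg_right e (apply_nonneg N x))⟩

lemma Dl.isN {N N' : Seminorm ℝ V} {t : ℝ} (h : Dl N N' t) (hN : IsN N) : IsN N' := by
  intro x hx
  refine hN x (le_antisymm ?_ (apply_nonneg N x))
  have := (h x).1
  rwa [hx, mul_zero] at this

end basics

namespace NRD

lemma card_fin_filter (M : ℕ) (P : ℕ → Prop) [DecidablePred P] :
    ((univ : Finset (Fin M)).filter fun σ : Fin M => P (σ : ℕ)).card = ((range M).filter P).card := by
  rw [Finset.card_filter, Finset.card_filter]
  exact Fin.sum_univ_eq_sum_range (fun i => if P i then 1 else 0) M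

open Classical in
/-- Exceptional offsets for a real number. -/
lemma count1 (M : ℕ) (hM : 0 < M) (a b : ℝ) :
    (((univ : Finset (Fin M)).filter fun σ : Fin M => ⌊a + ((σ : ℕ) : ℝ) / M⌋ ≠
      ⌊b + ((σ : ℕ) : ℝ) / M⌋).card : ℝ) ≤ M * |b - a| + 1 := by
  have h := Pool.KA.OFF.count M 1 hM a b
  rw [Nat.mul_one, Nat.cast_one, one_mul] at h
  refine le_trans (le_of_eq ?_) h
  congr 1
  exact card_fin_filter M (fun j : ℕ => ⌊a + (j : ℝ) / M⌋ ≠ ⌊b + (j : ℝ) / M⌋)

open Classical in
/-- Rounding of the points of a normed space. -/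
theorem round (W : Type) [AddCommGroup W] [Module ℝ W] [FiniteDimensional ℝ W]
    (N : Seminorm ℝ W) (hN : IsN N) (m : ℝ) (hm : 0 < m) (M : ℕ) (hM : 0 < M) :
    ∃ ρ : Fin M → W → W, (∀ σ w, N (w - ρ σ w) ≤ finrank ℝ W * m) ∧
      ∀ w w', (((univ : Finset (Fin M)).filter fun σ : Fin M => ρ σ w ≠ ρ σ w').card : ℝ) ≤
        finrank ℝ W * (M * (N (w - w') / m) + 1) := by
  obtain ⟨f, hf, hr⟩ := auerbach W N hN
  have hM0 : (0 : ℝ) < M := by exact_mod_cast hM
  refine ⟨fun σ w => ∑ j, (((⌊f.repr w j / m + ((σ : ℕ) : ℝ) / M⌋ : ℝ) - ((σ : ℕ) : ℝ) / M) * m) •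
    f j, ?_, ?_⟩
  · intro σ w
    have e : w - ∑ j, (((⌊f.repr w j / m + ((σ : ℕ) : ℝ) / M⌋ : ℝ) - ((σ : ℕ) : ℝ) / M) * m) •
        f j = ∑ j, (f.repr w j -
          ((⌊f.repr w j / m + ((σ : ℕ) : ℝ) / M⌋ : ℝ) - ((σ : ℕ) : ℝ) / M) * m) • f j := by
      conv_lhs => rw [← f.sum_repr w]
      rw [f.sum_repr, ← f.sum_repr w, ← Finset.sum_sub_distrib]
      refine Finset.sum_congr rfl fun j _ => ?_
      rw [f.sum_repr, sub_smul]
    rw [e]
    calc N (∑ j, (f.repr w j -
          ((⌊f.repr w j / m + ((σ : ℕ) : ℝ) / M⌋ : ℝ) - ((σ : ℕ) : ℝ) / M) * m) • f j)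
        ≤ ∑ j, N ((f.repr w j -
          ((⌊f.repr w j / m + ((σ : ℕ) : ℝ) / M⌋ : ℝ) - ((σ : ℕ) : ℝ) / M) * m) • f j) :=
          Finset.le_sum_of_subadditive N (map_zero N).le (fun a b => map_add_le_add N a b) _ _
      _ ≤ ∑ _j : Fin (finrank ℝ W), m := by
          refine Finset.sum_le_sum fun j _ => ?_
          rw [map_smul_eq_mul, Real.norm_eq_abs]
          have h1 : |f.repr w j -
              ((⌊f.repr w j / m + ((σ : ℕ) : ℝ) / M⌋ : ℝ) - ((σ : ℕ) : ℝ) / M) * m| ≤ m := by
            have h2 := Int.floor_le (f.repr w j / m + ((σ : ℕ) : ℝ) / M)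
            have h3 := Int.lt_floor_add_one (f.repr w j / m + ((σ : ℕ) : ℝ) / M)
            have e1 : f.repr w j = f.repr w j / m * m := by field_simp
            rw [abs_le]
            constructor
            · have : ((⌊f.repr w j / m + ((σ : ℕ) : ℝ) / M⌋ : ℝ) - ((σ : ℕ) : ℝ) / M) * m ≤
                  f.repr w j / m * m := mul_le_mul_of_nonneg_right (by linarith only [h2]) hm.le
              rw [← e1] at this
              linarith only [hm, this]
            · have : (f.repr w j / m - 1) * m ≤
                  ((⌊f.repr w j / m + ((σ : ℕ) : ℝ) / M⌋ : ℝ) - ((σ : ℕ) : ℝ) / M) * m :=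
                mul_le_mul_of_nonneg_right (by linarith only [h3]) hm.le
              have e2 : (f.repr w j / m - 1) * m = f.repr w j - m := by
                rw [sub_mul, one_mul, ← e1]
              rw [e2] at this
              linarith only [this]
          calc _ ≤ m * 1 := mul_le_mul h1 (hf j) (apply_nonneg N _) hm.le
            _ = m := mul_one m
      _ = finrank ℝ W * m := by
          rw [Finset.sum_const, Finset.card_univ, Fintype.card_fin, nsmul_eq_mul]
  · intro w w'
    have hsub : ((univ : Finset (Fin M)).filter fun σ : Fin M =>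
        (∑ j, (((⌊f.repr w j / m + ((σ : ℕ) : ℝ) / M⌋ : ℝ) - ((σ : ℕ) : ℝ) / M) * m) • f j) ≠
        ∑ j, (((⌊f.repr w' j / m + ((σ : ℕ) : ℝ) / M⌋ : ℝ) - ((σ : ℕ) : ℝ) / M) * m) • f j) ⊆
        (univ : Finset (Fin (finrank ℝ W))).biUnion fun j =>
          (univ : Finset (Fin M)).filter fun σ : Fin M => ⌊f.repr w j / m + ((σ : ℕ) : ℝ) / M⌋ ≠
            ⌊f.repr w' j / m + ((σ : ℕ) : ℝ) / M⌋ := by
      intro σ hσ
      have h1 := (Finset.mem_filter.mp hσ).2
      by_contra hcon
      simp only [Finset.mem_biUnion, Finset.mem_filter, Finset.mem_univ, true_and, not_exists,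
        not_not] at hcon
      apply h1
      refine Finset.sum_congr rfl fun j _ => ?_
      rw [hcon j]
    have h1 := (Finset.card_le_card hsub).trans Finset.card_biUnion_le
    calc (((univ : Finset (Fin M)).filter fun σ : Fin M =>
        (∑ j, (((⌊f.repr w j / m + ((σ : ℕ) : ℝ) / M⌋ : ℝ) - ((σ : ℕ) : ℝ) / M) * m) • f j) ≠
        ∑ j, (((⌊f.repr w' j / m + ((σ : ℕ) : ℝ) / M⌋ : ℝ) - ((σ : ℕ) : ℝ) / M) * m) •
          f j).card : ℝ)
        ≤ ∑ j : Fin (finrank ℝ W), (((univ : Finset (Fin M)).filter fun σ : Fin M =>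
            ⌊f.repr w j / m + ((σ : ℕ) : ℝ) / M⌋ ≠
              ⌊f.repr w' j / m + ((σ : ℕ) : ℝ) / M⌋).card : ℝ) := by exact_mod_cast h1
      _ ≤ ∑ _j : Fin (finrank ℝ W), (M * (N (w - w') / m) + 1) := by
          refine Finset.sum_le_sum fun j _ => ?_
          refine (count1 M hM _ _).trans ?_
          have h2 : |f.repr w' j / m - f.repr w j / m| ≤ N (w - w') / m := by
            rw [← sub_div, abs_div, abs_of_pos hm]
            refine div_le_div_of_nonneg_right ?_ hm.le
            have h3 := hr (w - w') j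
            rw [map_sub, Finsupp.sub_apply] at h3
            rw [abs_sub_comm]
            exact h3
          have h4 := mul_le_mul_of_nonneg_left h2 hM0.le
          linarith only [h4]
      _ = finrank ℝ W * (M * (N (w - w') / m) + 1) := by
          rw [Finset.sum_const, Finset.card_univ, Fintype.card_fin, nsmul_eq_mul]

/-- The size of a functional with respect to a norm, up to the dimension. -/
theorem dual (V : Type) [AddCommGroup V] [Module ℝ V] [FiniteDimensional ℝ V] (φ : V →ₗ[ℝ] ℝ)
    (hφ : φ ≠ 0) (N : Seminorm ℝ V) (hN : IsN N) :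
    ∃ r : ℝ, ∃ u : V, 0 < r ∧ φ u = 1 ∧ N u ≤ finrank ℝ V / r ∧ ∀ x, |φ x| ≤ r * N x := by
  classical
  obtain ⟨f, hf, hr⟩ := auerbach V N hN
  set r : ℝ := ∑ i, |φ (f i)| with hrd
  have hbound : ∀ x, |φ x| ≤ r * N x := by
    intro x
    have e : φ x = ∑ i, f.repr x i * φ (f i) := by
      conv_lhs => rw [← f.sum_repr x]
      rw [map_sum]
      exact Finset.sum_congr rfl fun i _ => by rw [map_smul, smul_eq_mul]
    rw [e, hrd, Finset.sum_mul]
    refine (Finset.abs_sum_le_sum_abs _ _).trans (Finset.sum_le_sum fun i _ => ?_)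
    rw [abs_mul, mul_comm]
    exact mul_le_mul_of_nonneg_left (hr x i) (abs_nonneg _)
  have hr0 : 0 < r := by
    by_contra h
    push Not at h
    apply hφ
    ext x
    have h1 := hbound x
    have h2 : r * N x ≤ 0 := mul_nonpos_of_nonpos_of_nonneg h (apply_nonneg N x)
    have h3 : |φ x| = 0 := le_antisymm (h1.trans h2) (abs_nonneg _)
    simpa using h3
  obtain ⟨i, hi⟩ : ∃ i, r ≤ finrank ℝ V * |φ (f i)| := by
    by_contra hcon
    push Not at hcon
    rcases Nat.eq_zero_or_pos (finrank ℝ V) with h0 | h0
    · have : r = 0 := by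
        rw [hrd]
        have : IsEmpty (Fin (finrank ℝ V)) := by
          rw [h0]
          infer_instance
        exact Finset.sum_of_isEmpty _
      linarith only [hr0, this]
    · have hne : (univ : Finset (Fin (finrank ℝ V))).Nonempty := ⟨⟨0, h0⟩, Finset.mem_univ _⟩
      have h1 : ∑ i : Fin (finrank ℝ V), (finrank ℝ V : ℝ) * |φ (f i)| <
          ∑ _i : Fin (finrank ℝ V), r := Finset.sum_lt_sum_of_nonempty hne fun i _ => hcon i
      rw [← Finset.mul_sum, Finset.sum_const, Finset.card_univ, Fintype.card_fin, nsmul_eq_mul]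
        at h1
      exact lt_irrefl _ h1
  have hφi : 0 < |φ (f i)| := by
    by_contra h
    have h1 : |φ (f i)| = 0 := le_antisymm (not_lt.mp h) (abs_nonneg _)
    rw [h1, mul_zero] at hi
    linarith
  have hφi' : φ (f i) ≠ 0 := abs_pos.mp hφi
  refine ⟨r, (φ (f i))⁻¹ • f i, hr0, ?_, ?_, hbound⟩
  · rw [map_smul, smul_eq_mul, inv_mul_cancel₀ hφi']
  · rw [map_smul_eq_mul, norm_inv, Real.norm_eq_abs]
    rw [le_div_iff₀ hr0]
    calc |φ (f i)|⁻¹ * N (f i) * r ≤ |φ (f i)|⁻¹ * 1 * r := by
          refine mul_le_mul_of_nonneg_right ?_ hr0.le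
          exact mul_le_mul_of_nonneg_left (hf i) (inv_nonneg.mpr hφi.le)
      _ ≤ |φ (f i)|⁻¹ * 1 * (finrank ℝ V * |φ (f i)|) :=
          mul_le_mul_of_nonneg_left hi (by positivity)
      _ = finrank ℝ V := by field_simp


section model

variable {V : Type} [AddCommGroup V] [Module ℝ V] (φ : V →ₗ[ℝ] ℝ) (e₀ : V) (he : φ e₀ = 1)

/-- Projection along `e₀`. -/
def proj (he : φ e₀ = 1) : V →ₗ[ℝ] LinearMap.ker φ :=
  (LinearMap.id - φ.smulRight e₀).codRestrict (LinearMap.ker φ) (fun x => by
    rw [LinearMap.mem_ker, LinearMap.sub_apply, LinearMap.smulRight_apply, LinearMap.id_apply,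
      map_sub, map_smul, he, smul_eq_mul, mul_one, sub_self])

lemma proj_coe (x : V) : ((proj φ e₀ he x : LinearMap.ker φ) : V) = x - φ x • e₀ := rfl

/-- The model norm. -/
noncomputable def model (Nw : Seminorm ℝ (LinearMap.ker φ)) (al : ℝ) (w : LinearMap.ker φ) :
    Seminorm ℝ V :=
  Nw.comp (proj φ e₀ he - φ.smulRight w) ⊔ (normSeminorm ℝ ℝ).comp (Real.exp (-al) • φ)

lemma model_apply (Nw : Seminorm ℝ (LinearMap.ker φ)) (al : ℝ) (w : LinearMap.ker φ) (x : V) :
    model φ e₀ he Nw al w x =
      max (Nw (proj φ e₀ he x - φ x • w)) (Real.exp (-al) * |φ x|) := by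
  unfold model
  rw [Seminorm.sup_apply]
  congr 1
  rw [Seminorm.comp_apply, LinearMap.smul_apply, smul_eq_mul]
  show ‖Real.exp (-al) * φ x‖ = _
  rw [norm_mul, Real.norm_eq_abs, Real.norm_eq_abs, abs_of_pos (Real.exp_pos _)]

/-- The model norm is close to the norm. -/
lemma model_close (N : Seminorm ℝ V) (Nw : Seminorm ℝ (LinearMap.ker φ)) (T : ℝ) (hT : 0 ≤ T)
    (hNw : Dl (N.comp (LinearMap.ker φ).subtype) Nw T) (r : ℝ) (u : V) (hu : φ u = 1)
    (hr : ∀ x, |φ x| ≤ r * N x) (al A : ℝ) (hA : 0 ≤ A) (w : LinearMap.ker φ) (B T' : ℝ)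
    (hB : 0 ≤ B) (hrA : r ≤ Real.exp (al + A)) (hNu : N u ≤ B * Real.exp (-al))
    (D : ℝ) (hD : 0 ≤ D)
    (hw : Nw (proj φ e₀ he u - w) ≤ D * Real.exp (-al))
    (hT' : Real.exp T * Real.exp A * (1 + B + Real.exp T * D) ≤ Real.exp T') :
    Dl N (model φ e₀ he Nw al w) T' := by
  have eT := Real.exp_pos T
  have eA := Real.exp_pos A
  have eal := Real.exp_pos (-al)
  have eT1 : 1 ≤ Real.exp T := Real.one_le_exp hT
  have eA1 : 1 ≤ Real.exp A := Real.one_le_exp hA
  -- the rounded vector
  have hut : N (e₀ + w) ≤ (B + Real.exp T * D) * Real.exp (-al) := by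
    have e1 : e₀ + (w : V) = u - ((proj φ e₀ he u - w : LinearMap.ker φ) : V) := by
      rw [Submodule.coe_sub, proj_coe, hu, one_smul]
      abel
    have h1 : N ((proj φ e₀ he u - w : LinearMap.ker φ) : V) ≤
        Real.exp T * (D * Real.exp (-al)) := by
      have h2 := (hNw (proj φ e₀ he u - w)).1
      rw [Seminorm.comp_apply, Submodule.subtype_apply] at h2
      exact h2.trans (mul_le_mul_of_nonneg_left hw eT.le)
    rw [e1]
    refine (map_sub_le_add N _ _).trans ?_
    calc N u + N ((proj φ e₀ he u - w : LinearMap.ker φ) : V)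
        ≤ B * Real.exp (-al) + Real.exp T * (D * Real.exp (-al)) := add_le_add hNu h1
      _ = _ := by ring
  intro x
  rw [model_apply]
  have e2 : ((proj φ e₀ he x - φ x • w : LinearMap.ker φ) : V) = x - φ x • (e₀ + (w : V)) := by
    rw [Submodule.coe_sub, proj_coe, Submodule.coe_smul, smul_add]
    abel
  have h3 := hNw (proj φ e₀ he x - φ x • w)
  rw [Seminorm.comp_apply, Submodule.subtype_apply, e2] at h3
  have hBD : 0 ≤ B + Real.exp T * D := by positivity
  constructor
  · -- upper bound
    have h4 : N x ≤ N (x - φ x • (e₀ + (w : V))) + |φ x| * N (e₀ + (w : V)) := by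
      calc N x = N ((x - φ x • (e₀ + (w : V))) + φ x • (e₀ + (w : V))) := by
            congr 1
            abel
        _ ≤ N (x - φ x • (e₀ + (w : V))) + N (φ x • (e₀ + (w : V))) := map_add_le_add N _ _
        _ = _ := by rw [map_smul_eq_mul, Real.norm_eq_abs]
    set Mx := max (Nw (proj φ e₀ he x - φ x • w)) (Real.exp (-al) * |φ x|) with hMx
    have h5 : Nw (proj φ e₀ he x - φ x • w) ≤ Mx := le_max_left _ _
    have h6 : Real.exp (-al) * |φ x| ≤ Mx := le_max_right _ _
    have hM0 : 0 ≤ Mx := (apply_nonneg Nw _).trans h5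
    calc N x ≤ N (x - φ x • (e₀ + (w : V))) + |φ x| * N (e₀ + (w : V)) := h4
      _ ≤ Real.exp T * Mx + |φ x| * ((B + Real.exp T * D) * Real.exp (-al)) :=
          add_le_add (h3.1.trans (mul_le_mul_of_nonneg_left h5 eT.le))
            (mul_le_mul_of_nonneg_left hut (abs_nonneg _))
      _ = Real.exp T * Mx + (B + Real.exp T * D) * (Real.exp (-al) * |φ x|) := by ring
      _ ≤ Real.exp T * Mx + (B + Real.exp T * D) * Mx :=
          add_le_add le_rfl (mul_le_mul_of_nonneg_left h6 hBD)
      _ ≤ Real.exp T' * Mx := by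
          rw [← add_mul]
          refine mul_le_mul_of_nonneg_right (le_trans ?_ hT') hM0
          have h7 : Real.exp T * (1 + B + Real.exp T * D) ≤
              Real.exp T * Real.exp A * (1 + B + Real.exp T * D) := by
            refine mul_le_mul_of_nonneg_right ?_ (by linarith only [hBD])
            nlinarith only [eT, eA1]
          have h8 : (B + Real.exp T * D) ≤ Real.exp T * (B + Real.exp T * D) := by
            nlinarith only [eT1, hBD]
          nlinarith only [h7, h8]
  · -- lower bound
    have h4 : |φ x| * Real.exp (-al) ≤ Real.exp A * N x := by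
      calc |φ x| * Real.exp (-al) ≤ (r * N x) * Real.exp (-al) :=
            mul_le_mul_of_nonneg_right (hr x) eal.le
        _ ≤ (Real.exp (al + A) * N x) * Real.exp (-al) := by
            refine mul_le_mul_of_nonneg_right ?_ eal.le
            exact mul_le_mul_of_nonneg_right hrA (apply_nonneg N x)
        _ = Real.exp A * N x := by
            have : Real.exp (al + A) * Real.exp (-al) = Real.exp A := by
              rw [← Real.exp_add]
              congr 1
              ring
            calc Real.exp (al + A) * N x * Real.exp (-al) =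
                (Real.exp (al + A) * Real.exp (-al)) * N x := by ring
              _ = _ := by rw [this]
    have hNx := apply_nonneg N x
    have h5 : N (x - φ x • (e₀ + (w : V))) ≤ N x + Real.exp A * N x * (B + Real.exp T * D) := by
      calc N (x - φ x • (e₀ + (w : V))) ≤ N x + N (φ x • (e₀ + (w : V))) := map_sub_le_add N _ _
        _ = N x + |φ x| * N (e₀ + (w : V)) := by rw [map_smul_eq_mul, Real.norm_eq_abs]
        _ ≤ N x + |φ x| * ((B + Real.exp T * D) * Real.exp (-al)) :=
            add_le_add le_rfl (mul_le_mul_of_nonneg_left hut (abs_nonneg _))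
        _ = N x + (|φ x| * Real.exp (-al)) * (B + Real.exp T * D) := by ring
        _ ≤ N x + Real.exp A * N x * (B + Real.exp T * D) :=
            add_le_add le_rfl (mul_le_mul_of_nonneg_right h4 hBD)
    refine max_le ?_ ?_
    · calc Nw (proj φ e₀ he x - φ x • w) ≤ Real.exp T * N (x - φ x • (e₀ + (w : V))) := h3.2
        _ ≤ Real.exp T * (N x + Real.exp A * N x * (B + Real.exp T * D)) :=
            mul_le_mul_of_nonneg_left h5 eT.le
        _ = Real.exp T * (1 + Real.exp A * (B + Real.exp T * D)) * N x := by ring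
        _ ≤ Real.exp T' * N x := by
            refine mul_le_mul_of_nonneg_right (le_trans ?_ hT') hNx
            have : 1 + Real.exp A * (B + Real.exp T * D) ≤
                Real.exp A * (1 + B + Real.exp T * D) := by nlinarith only [eA1]
            calc Real.exp T * (1 + Real.exp A * (B + Real.exp T * D)) ≤
                Real.exp T * (Real.exp A * (1 + B + Real.exp T * D)) :=
                  mul_le_mul_of_nonneg_left this eT.le
              _ = _ := by ring
    · calc Real.exp (-al) * |φ x| = |φ x| * Real.exp (-al) := mul_comm _ _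
        _ ≤ Real.exp A * N x := h4
        _ ≤ Real.exp T' * N x := by
            refine mul_le_mul_of_nonneg_right (le_trans ?_ hT') hNx
            have h7 : Real.exp A * 1 ≤ Real.exp T * Real.exp A * (1 + B + Real.exp T * D) := by
              refine mul_le_mul ?_ (by nlinarith only [hBD]) zero_le_one (by positivity)
              nlinarith only [eA, eT1]
            linarith only [h7]

end model

end NRD


open NRD Classical in
/-- **Norm rounding** (row NR). On the norms of a space of dimension `n` there is a random rounding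
`Y`: it moves every norm by at most `C L h` (logarithmic distance), and it gives the same value on
two norms at distance at most `h`, outside probability `3 n / L`. -/
theorem norm_rounding (n : ℕ) : ∃ C : ℝ, 1 ≤ C ∧ ∀ (V : Type) [AddCommGroup V] [Module ℝ V]
    [FiniteDimensional ℝ V], finrank ℝ V = n → ∀ L h : ℝ, 1 ≤ L → 1 ≤ h →
    ∃ (S : Type) (_ : Fintype S), 0 < Fintype.card S ∧
      ∃ Y : S → Seminorm ℝ V → Seminorm ℝ V, (∀ s N, IsN N → Dl N (Y s N) (C * (L * h))) ∧
        ∀ N N', IsN N → IsN N' → Dl N N' h →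
          (((univ : Finset S).filter fun s => Y s N ≠ Y s N').card : ℝ) ≤
            3 * n / L * Fintype.card S := by
  induction n with
  | zero =>
    refine ⟨1, le_rfl, ?_⟩
    intro V _ _ _ hV L h hL hh
    have hsub : ∀ x : V, x = 0 := by
      have : Subsingleton V := finrank_zero_iff.mp hV
      exact fun x => Subsingleton.elim x 0
    refine ⟨Unit, inferInstance, by simp, fun _ N => N, ?_, ?_⟩
    · intro s N _ x
      rw [hsub x, map_zero, mul_zero]
      exact ⟨le_rfl, le_rfl⟩
    · intro N N' _ _ _
      have : N = N' := by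
        ext x
        rw [hsub x, map_zero, map_zero]
      simp [this]
  | succ n ih =>
    obtain ⟨C, hC, ih⟩ := ih
    -- constants
    set κ : ℝ := n + 1 with hκ
    have hn0 : (0 : ℝ) ≤ n := Nat.cast_nonneg n
    have hκ1 : 1 ≤ κ := by linarith
    have hlκ : 0 ≤ Real.log κ := Real.log_nonneg hκ1
    set κ₁ : ℝ := 1 + Real.log κ with hκ₁
    have hκ₁1 : 1 ≤ κ₁ := by linarith only [hlκ]
    have hl2 : 0 ≤ Real.log (2 * κ ^ 2) := Real.log_nonneg (by nlinarith)
    have hl3 : 0 ≤ Real.log (1 + κ + n) := Real.log_nonneg (by linarith only)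
    refine ⟨3 * C + 2 * κ₁ + 2 + Real.log (2 * κ ^ 2) + Real.log (1 + κ + n), by linarith only [hC, hlκ, hl2, hl3], ?_⟩
    intro V _ _ _ hV L h hL hh
    have hL0 : 0 < L := by linarith only [hL]
    have hh0 : 0 < h := by linarith only [hh]
    have hLh : 1 ≤ L * h := by nlinarith only [hL, hh]
    have hhLh : h ≤ L * h := by nlinarith only [hL, hh]
    have hLLh : L ≤ L * h := by nlinarith only [hh, hL]
    -- a functional
    obtain ⟨φ, hφ⟩ : ∃ φ : V →ₗ[ℝ] ℝ, φ ≠ 0 := by
      have : Nontrivial V := nontrivial_of_finrank_pos (R := ℝ) (by omega)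
      obtain ⟨x, hx⟩ := exists_ne (0 : V)
      let b := finBasis ℝ V
      by_contra hcon
      push Not at hcon
      apply hx
      refine b.ext_elem fun i => ?_
      have h1 := hcon (b.coord i)
      have h2 : b.coord i x = 0 := by rw [h1]; rfl
      rw [map_zero]
      exact h2
    obtain ⟨e₀, he⟩ : ∃ e₀, φ e₀ = 1 := by
      by_contra hcon
      push Not at hcon
      apply hφ
      ext x
      by_contra hx
      apply hcon ((φ x)⁻¹ • x)
      rw [map_smul, smul_eq_mul]
      exact inv_mul_cancel₀ hx
    have hker : finrank ℝ (LinearMap.ker φ) = n := by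
      have h1 := LinearMap.finrank_range_add_finrank_ker φ
      have h2 : LinearMap.range φ = ⊤ := by
        rw [LinearMap.range_eq_top]
        intro t
        exact ⟨t • e₀, by rw [map_smul, he, smul_eq_mul, mul_one]⟩
      rw [h2, finrank_top, finrank_self, hV] at h1
      omega
    obtain ⟨S, hS, hScard, Yw, hYw1, hYw2⟩ := ih (LinearMap.ker φ) hker L h hL hh
    set T : ℝ := C * (L * h) with hT
    set A : ℝ := κ₁ * (L * h) with hA
    set H : ℝ := T + (1 + κ₁) * h + Real.log (2 * κ ^ 2 * L) with hH
    have hT0 : 0 ≤ T := by positivity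
    have hA0 : 0 < A := by positivity
    -- number of offsets
    obtain ⟨M, hM⟩ : ∃ M : ℕ, κ * L ≤ M := exists_nat_ge (κ * L)
    have hM1 : (1 : ℝ) ≤ M := by nlinarith
    have hM0 : 0 < M := by
      have : (0 : ℝ) < M := by linarith only [hM1]
      exact_mod_cast this
    have hMr : (0 : ℝ) < M := by linarith only [hM1]
    -- data of the norms
    have hdual : ∀ N : Seminorm ℝ V, IsN N → ∃ r : ℝ, ∃ u : V, 0 < r ∧ φ u = 1 ∧
        N u ≤ κ / r ∧ ∀ x, |φ x| ≤ r * N x := by
      intro N hN
      obtain ⟨r, u, h1, h2, h3, h4⟩ := dual V φ hφ N hN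
      refine ⟨r, u, h1, h2, ?_, h4⟩
      rw [hV] at h3
      push_cast at h3
      exact h3
    choose! r u hr0 hφu hNu hφx using hdual
    have hround : ∀ Nw : Seminorm ℝ (LinearMap.ker φ), IsN Nw → ∀ m : ℝ, 0 < m →
        ∃ ρ : Fin M → LinearMap.ker φ → LinearMap.ker φ, (∀ σ w, Nw (w - ρ σ w) ≤ n * m) ∧
        ∀ w w', (((univ : Finset (Fin M)).filter fun σ : Fin M => ρ σ w ≠ ρ σ w').card : ℝ) ≤
        n * (M * (Nw (w - w') / m) + 1) := by
      intro Nw hNw m hm
      obtain ⟨ρ, h1, h2⟩ := round (LinearMap.ker φ) Nw hNw m hm M hM0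
      rw [hker] at h1 h2
      refine ⟨ρ, h1, fun w w' => ?_⟩
      convert h2 w w'
    choose! ρ hρ1 hρ2 using hround
    -- restriction to the hyperplane
    set R : Seminorm ℝ V → Seminorm ℝ (LinearMap.ker φ) :=
      fun N => N.comp (LinearMap.ker φ).subtype with hR
    have hRN : ∀ N, IsN N → IsN (R N) := by
      intro N hN x hx
      have h1 := hN (x : V) hx
      exact Subtype.ext h1
    have hRD : ∀ N N', Dl N N' h → Dl (R N) (R N') h := fun N N' hD x => hD (x : V)
    -- the rounded level
    set al : Fin M → Seminorm ℝ V → ℝ := fun σ N =>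
      ((⌊Real.log (r N) / A + ((σ : ℕ) : ℝ) / M⌋ : ℝ) - ((σ : ℕ) : ℝ) / M) * A with hal
    have hal1 : ∀ σ N, al σ N ≤ Real.log (r N) ∧ Real.log (r N) ≤ al σ N + A := by
      intro σ N
      have h2 := Int.floor_le (Real.log (r N) / A + ((σ : ℕ) : ℝ) / M)
      have h3 := (Int.lt_floor_add_one (Real.log (r N) / A + ((σ : ℕ) : ℝ) / M)).le
      have e1 : Real.log (r N) = Real.log (r N) / A * A := by field_simp
      constructor
      · rw [e1]
        exact mul_le_mul_of_nonneg_right (by linarith only [h2]) hA0.le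
      · have h4 : Real.log (r N) / A * A ≤ (((⌊Real.log (r N) / A + ((σ : ℕ) : ℝ) / M⌋ : ℝ) -
            ((σ : ℕ) : ℝ) / M) + 1) * A := mul_le_mul_of_nonneg_right (by linarith only [h3]) hA0.le
        rw [← e1] at h4
        simp only [hal]
        linarith only [h4]
    set wt : S → Fin M → Fin M → Seminorm ℝ V → LinearMap.ker φ := fun s σ₁ σ₂ N =>
      ρ (Yw s (R N)) (Real.exp (H - al σ₁ N)) σ₂ (proj φ e₀ he (u N)) with hwt
    set Y : S × Fin M × Fin M → Seminorm ℝ V → Seminorm ℝ V := fun x N =>
      model φ e₀ he (Yw x.1 (R N)) (al x.2.1 N) (wt x.1 x.2.1 x.2.2 N) with hY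
    have hYN : ∀ s N, IsN N → IsN (Yw s (R N)) := fun s N hN =>
      (hYw1 s (R N) (hRN N hN)).isN (hRN N hN)
    refine ⟨S × Fin M × Fin M, inferInstance, ?_, Y, ?_, ?_⟩
    · rw [Fintype.card_prod, Fintype.card_prod, Fintype.card_fin]
      positivity
    · -- the model is close
      intro x N hN
      have ha := hal1 x.2.1 N
      have hrN := hr0 N hN
      have hr1 : r N = Real.exp (Real.log (r N)) := (Real.exp_log hrN).symm
      have hr2 : 1 / r N ≤ Real.exp (-al x.2.1 N) := by
        rw [hr1, one_div, ← Real.exp_neg]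
        exact Real.exp_le_exp.mpr (by linarith only [ha, ha.1])
      refine model_close φ e₀ he N (Yw x.1 (R N)) T hT0 (hYw1 x.1 (R N) (hRN N hN)) (r N) (u N)
        (hφu N hN) (hφx N hN) (al x.2.1 N) A hA0.le (wt x.1 x.2.1 x.2.2 N) κ _ (by linarith) ?_ ?_
        (n * Real.exp H) (by positivity) ?_ ?_
      · rw [hr1]
        exact Real.exp_le_exp.mpr ha.2
      · calc N (u N) ≤ κ / r N := hNu N hN
          _ = κ * (1 / r N) := by ring
          _ ≤ κ * Real.exp (-al x.2.1 N) := mul_le_mul_of_nonneg_left hr2 (by linarith)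
      · have h1 := hρ1 (Yw x.1 (R N)) (hYN x.1 N hN) (Real.exp (H - al x.2.1 N)) (Real.exp_pos _)
          x.2.2 (proj φ e₀ he (u N))
        refine h1.trans (le_of_eq ?_)
        rw [mul_assoc, ← Real.exp_add]
        rfl
      · -- the constant
        have hHT : 1 ≤ Real.exp T * Real.exp H := by
          rw [← Real.exp_add]
          refine Real.one_le_exp ?_
          have h3 : 0 ≤ Real.log (2 * κ ^ 2 * L) := Real.log_nonneg (by nlinarith)
          have h4 : 0 ≤ (1 + κ₁) * h := by positivity
          linarith only [hT0, h3, h4]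
        have h1 : 1 + κ + Real.exp T * (n * Real.exp H) ≤
            (1 + κ + n) * (Real.exp T * Real.exp H) := by
          nlinarith only [hHT]
        have hpos3 : 0 < 1 + κ + n := by linarith only
        calc Real.exp T * Real.exp A * (1 + κ + Real.exp T * (n * Real.exp H))
            ≤ Real.exp T * Real.exp A * ((1 + κ + n) * (Real.exp T * Real.exp H)) :=
              mul_le_mul_of_nonneg_left h1 (by positivity)
          _ = Real.exp (T + A + (Real.log (1 + κ + n) + (T + H))) := by
              rw [Real.exp_add (T + A) _, Real.exp_add T A, Real.exp_add (Real.log (1 + κ + n)) _,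
                Real.exp_log hpos3, Real.exp_add T H]
          _ ≤ _ := by
              refine Real.exp_le_exp.mpr ?_
              have h5 : Real.log (2 * κ ^ 2 * L) = Real.log (2 * κ ^ 2) + Real.log L :=
                Real.log_mul (by positivity) (by positivity)
              have h6 : Real.log L ≤ L * h := by
                have := Real.log_le_sub_one_of_pos hL0
                linarith only [hLLh, this]
              have h7 : Real.log (2 * κ ^ 2) ≤ Real.log (2 * κ ^ 2) * (L * h) := by nlinarith only [hl2, hLh]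
              have h8 : Real.log (1 + κ + n) ≤ Real.log (1 + κ + n) * (L * h) := by nlinarith only [hl3, hLh]
              have h9 : (1 + κ₁) * h ≤ (1 + κ₁) * (L * h) :=
                mul_le_mul_of_nonneg_left hhLh (by linarith only [hlκ])
              rw [hH, h5, hA, hT]
              nlinarith only [h6, h7, h8, h9]
    · -- probability of a conflict
      intro N N' hN hN' hD
      have hrN := hr0 N hN
      have hrN' := hr0 N' hN'
      -- comparison of the sizes of the functional
      have hcmp : ∀ N N', IsN N → IsN N' → Dl N N' h → r N' ≤ r N * Real.exp (κ₁ * h) := by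
        intro N N' hN hN' hD
        have hrN := hr0 N hN
        have hrN' := hr0 N' hN'
        have h1 : (1 : ℝ) ≤ r N * (Real.exp h * (κ / r N')) := by
          calc (1 : ℝ) = |φ (u N')| := by rw [hφu N' hN', abs_one]
            _ ≤ r N * N (u N') := hφx N hN _
            _ ≤ r N * (Real.exp h * N' (u N')) :=
                mul_le_mul_of_nonneg_left (hD (u N')).1 hrN.le
            _ ≤ r N * (Real.exp h * (κ / r N')) := by
                refine mul_le_mul_of_nonneg_left ?_ hrN.le
                exact mul_le_mul_of_nonneg_left (hNu N' hN') (Real.exp_pos _).le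
        have h2 : r N' ≤ r N * (Real.exp h * κ) := by
          have h3 := mul_le_mul_of_nonneg_left h1 hrN'.le
          rw [mul_one] at h3
          refine h3.trans (le_of_eq ?_)
          field_simp
        refine h2.trans (mul_le_mul_of_nonneg_left ?_ hrN.le)
        calc Real.exp h * κ = Real.exp (h + Real.log κ) := by
              rw [Real.exp_add, Real.exp_log (by linarith)]
          _ ≤ Real.exp (κ₁ * h) := by
              refine Real.exp_le_exp.mpr ?_
              rw [hκ₁]
              nlinarith only [hlκ, hh]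
      have hc1 := hcmp N N' hN hN' hD
      have hc2 := hcmp N' N hN' hN hD.symm
      have hlog : |Real.log (r N') - Real.log (r N)| ≤ κ₁ * h := by
        have e1 := Real.log_le_log hrN' hc1
        have e2 := Real.log_le_log hrN hc2
        rw [Real.log_mul hrN.ne' (Real.exp_pos _).ne', Real.log_exp] at e1
        rw [Real.log_mul hrN'.ne' (Real.exp_pos _).ne', Real.log_exp] at e2
        rw [abs_le]
        constructor <;> linarith
      -- the three kinds of conflicts
      have hcA := hYw2 (R N) (R N') (hRN N hN) (hRN N' hN') (hRD N N' hD)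
      have hcB : (((univ : Finset (Fin M)).filter fun σ : Fin M => al σ N ≠ al σ N').card : ℝ) ≤
          M / L + 1 := by
        have h1 := count1 M hM0 (Real.log (r N) / A) (Real.log (r N') / A)
        have h2 : ((univ : Finset (Fin M)).filter fun σ : Fin M => al σ N ≠ al σ N') ⊆
            ((univ : Finset (Fin M)).filter fun σ : Fin M =>
              ⌊Real.log (r N) / A + ((σ : ℕ) : ℝ) / M⌋ ≠
              ⌊Real.log (r N') / A + ((σ : ℕ) : ℝ) / M⌋) := by
          intro σ hσ
          refine Finset.mem_filter.mpr ⟨Finset.mem_univ _, fun h3 => (Finset.mem_filter.mp hσ).2 ?_⟩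
          simp only [hal]
          rw [h3]
        have h3 : (((univ : Finset (Fin M)).filter fun σ : Fin M => al σ N ≠ al σ N').card : ℝ) ≤
            (((univ : Finset (Fin M)).filter fun σ : Fin M =>
              ⌊Real.log (r N) / A + ((σ : ℕ) : ℝ) / M⌋ ≠
              ⌊Real.log (r N') / A + ((σ : ℕ) : ℝ) / M⌋).card : ℝ) := by
          exact_mod_cast Finset.card_le_card h2
        refine h3.trans (h1.trans ?_)
        have h4 : |Real.log (r N') / A - Real.log (r N) / A| ≤ 1 / L := by
          rw [← sub_div, abs_div, abs_of_pos hA0, div_le_iff₀ hA0]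
          refine hlog.trans (le_of_eq ?_)
          rw [hA]
          field_simp
        have h5 := mul_le_mul_of_nonneg_left h4 hMr.le
        have e : (M : ℝ) * (1 / L) = M / L := by ring
        linarith only [h5, e]
      have hcC : ∀ (s : S) (σ₁ : Fin M), Yw s (R N) = Yw s (R N') → al σ₁ N = al σ₁ N' →
          (((univ : Finset (Fin M)).filter fun σ₂ : Fin M =>
            wt s σ₁ σ₂ N ≠ wt s σ₁ σ₂ N').card : ℝ) ≤ M / L + n := by
        intro s σ₁ hs hσ
        have hmpos := Real.exp_pos (H - al σ₁ N)
        have h1 := hρ2 (Yw s (R N)) (hYN s N hN) (Real.exp (H - al σ₁ N)) hmpos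
          (proj φ e₀ he (u N)) (proj φ e₀ he (u N'))
        have e : ((univ : Finset (Fin M)).filter fun σ₂ : Fin M =>
            wt s σ₁ σ₂ N ≠ wt s σ₁ σ₂ N') =
            ((univ : Finset (Fin M)).filter fun σ₂ : Fin M =>
              ρ (Yw s (R N)) (Real.exp (H - al σ₁ N)) σ₂ (proj φ e₀ he (u N)) ≠
              ρ (Yw s (R N)) (Real.exp (H - al σ₁ N)) σ₂ (proj φ e₀ he (u N'))) := by
          refine Finset.filter_congr fun σ₂ _ => ?_
          simp only [hwt]
          rw [← hs, ← hσ]
        rw [e]
        refine h1.trans ?_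
        -- size of the difference
        have ha := hal1 σ₁ N
        have hr1 : 1 / r N ≤ Real.exp (-al σ₁ N) := by
          have : r N = Real.exp (Real.log (r N)) := (Real.exp_log hrN).symm
          rw [this, one_div, ← Real.exp_neg]
          exact Real.exp_le_exp.mpr (by linarith only [ha, ha.1])
        have hr2 : 1 / r N' ≤ Real.exp (κ₁ * h) * (1 / r N) := by
          rw [mul_one_div, div_le_div_iff₀ hrN' hrN, one_mul, mul_comm]
          exact hc2
        have h2 : N (u N - u N') ≤ 2 * κ * Real.exp ((1 + κ₁) * h) * Real.exp (-al σ₁ N) := by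
          have h3 : N (u N') ≤ Real.exp h * (κ * (Real.exp (κ₁ * h) * (1 / r N))) := by
            refine (hD (u N')).1.trans (mul_le_mul_of_nonneg_left ?_ (Real.exp_pos _).le)
            refine (hNu N' hN').trans ?_
            have e2 : κ / r N' = κ * (1 / r N') := by ring
            rw [e2]
            exact mul_le_mul_of_nonneg_left hr2 (by linarith)
          have h4 : N (u N) ≤ κ * (1 / r N) := by
            refine (hNu N hN).trans (le_of_eq ?_)
            ring
          have e3 : Real.exp h * Real.exp (κ₁ * h) = Real.exp ((1 + κ₁) * h) := by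
            rw [← Real.exp_add]
            congr 1
            ring
          have h5 : 1 ≤ Real.exp ((1 + κ₁) * h) := Real.one_le_exp (by positivity)
          have hrr : 0 < 1 / r N := by positivity
          have hκr : 0 < κ * (1 / r N) := by positivity
          calc N (u N - u N') ≤ N (u N) + N (u N') := map_sub_le_add N _ _
            _ ≤ κ * (1 / r N) + Real.exp h * (κ * (Real.exp (κ₁ * h) * (1 / r N))) :=
                add_le_add h4 h3
            _ = (1 + Real.exp ((1 + κ₁) * h)) * (κ * (1 / r N)) := by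
                rw [← e3]
                ring
            _ ≤ (2 * Real.exp ((1 + κ₁) * h)) * (κ * (1 / r N)) :=
                mul_le_mul_of_nonneg_right (by linarith only [h5]) hκr.le
            _ ≤ (2 * Real.exp ((1 + κ₁) * h)) * (κ * Real.exp (-al σ₁ N)) := by
                refine mul_le_mul_of_nonneg_left ?_ (by positivity)
                exact mul_le_mul_of_nonneg_left hr1 (by linarith)
            _ = _ := by ring
        have h3 : (Yw s (R N)) (proj φ e₀ he (u N) - proj φ e₀ he (u N')) ≤
            Real.exp T * N (u N - u N') := by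
          have h4 := (hYw1 s (R N) (hRN N hN) (proj φ e₀ he (u N) - proj φ e₀ he (u N'))).2
          have h5 : (R N) (proj φ e₀ he (u N) - proj φ e₀ he (u N')) = N (u N - u N') := by
            simp only [hR]
            rw [Seminorm.comp_apply, Submodule.subtype_apply, Submodule.coe_sub, proj_coe, proj_coe,
              hφu N hN, hφu N' hN']
            congr 1
            abel
          rw [h5] at h4
          exact h4
        have h4 : (Yw s (R N)) (proj φ e₀ he (u N) - proj φ e₀ he (u N')) /
            Real.exp (H - al σ₁ N) ≤ 1 / (κ * L) := by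
          rw [div_le_iff₀ hmpos]
          refine h3.trans ((mul_le_mul_of_nonneg_left h2 (Real.exp_pos _).le).trans (le_of_eq ?_))
          have e1 : Real.exp (H - al σ₁ N) = Real.exp T * Real.exp ((1 + κ₁) * h) *
              (2 * κ ^ 2 * L) * Real.exp (-al σ₁ N) := by
            have e4 : 2 * κ ^ 2 * L = Real.exp (Real.log (2 * κ ^ 2 * L)) :=
              (Real.exp_log (by positivity)).symm
            rw [e4, ← Real.exp_add, ← Real.exp_add, ← Real.exp_add]
            congr 1
          rw [e1]
          field_simp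
        have hnκ : (n : ℝ) / κ ≤ 1 := by
          rw [div_le_one (by linarith)]
          linarith only
        calc (n : ℝ) * (M * ((Yw s (R N)) (proj φ e₀ he (u N) - proj φ e₀ he (u N')) /
            Real.exp (H - al σ₁ N)) + 1) ≤ n * (M * (1 / (κ * L)) + 1) := by
              refine mul_le_mul_of_nonneg_left ?_ hn0
              have := mul_le_mul_of_nonneg_left h4 hMr.le
              linarith only [he, this]
          _ = (n / κ) * (M / L) + n := by
              field_simp
          _ ≤ 1 * (M / L) + n := by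
              have : 0 ≤ (M : ℝ) / L := by positivity
              have := mul_le_mul_of_nonneg_right hnκ this
              linarith only [this]
          _ = M / L + n := by ring
      -- counting
      have hpt : ∀ x : S × Fin M × Fin M, (if Y x N ≠ Y x N' then (1 : ℝ) else 0) ≤
          (if Yw x.1 (R N) ≠ Yw x.1 (R N') then (1 : ℝ) else 0) +
          (if al x.2.1 N ≠ al x.2.1 N' then (1 : ℝ) else 0) +
          (if Yw x.1 (R N) = Yw x.1 (R N') ∧ al x.2.1 N = al x.2.1 N' ∧
            wt x.1 x.2.1 x.2.2 N ≠ wt x.1 x.2.1 x.2.2 N' then (1 : ℝ) else 0) := by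
        intro x
        by_cases h1 : Yw x.1 (R N) = Yw x.1 (R N')
        · by_cases h2 : al x.2.1 N = al x.2.1 N'
          · by_cases h3 : wt x.1 x.2.1 x.2.2 N = wt x.1 x.2.1 x.2.2 N'
            · have : Y x N = Y x N' := by
                simp only [hY]
                rw [h1, h2, h3]
              simp [this, h1, h2, h3]
            · rw [if_pos (show _ ∧ _ ∧ _ from ⟨h1, h2, h3⟩)]
              split_ifs <;> norm_num
          · rw [if_pos (show al x.2.1 N ≠ al x.2.1 N' from h2)]
            split_ifs <;> norm_num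
        · rw [if_pos (show Yw x.1 (R N) ≠ Yw x.1 (R N') from h1)]
          split_ifs <;> norm_num
      have hcard : (((univ : Finset (S × Fin M × Fin M)).filter fun x =>
          Y x N ≠ Y x N').card : ℝ) = ∑ x : S × Fin M × Fin M,
            (if Y x N ≠ Y x N' then (1 : ℝ) else 0) := by
        rw [Finset.card_filter]
        push_cast
        rfl
      rw [hcard]
      refine (Finset.sum_le_sum fun x _ => hpt x).trans ?_
      rw [Finset.sum_add_distrib, Finset.sum_add_distrib]
      simp only [Fintype.sum_prod_type]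
      -- first sum
      have s1 : (∑ s : S, ∑ _σ₁ : Fin M, ∑ _σ₂ : Fin M,
          (if Yw s (R N) ≠ Yw s (R N') then (1 : ℝ) else 0)) ≤
          3 * n / L * Fintype.card S * (M * M) := by
        have e1 : (∑ s : S, ∑ _σ₁ : Fin M, ∑ _σ₂ : Fin M,
            (if Yw s (R N) ≠ Yw s (R N') then (1 : ℝ) else 0)) =
            (((univ : Finset S).filter fun s => Yw s (R N) ≠ Yw s (R N')).card : ℝ) *
              (M * M) := by
          simp only [Finset.sum_const, Finset.card_univ, Fintype.card_fin, nsmul_eq_mul]
          rw [Finset.card_filter]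
          push_cast
          rw [Finset.sum_mul]
          refine Finset.sum_congr rfl fun s _ => ?_
          ring
        rw [e1]
        exact mul_le_mul_of_nonneg_right hcA (by positivity)
      have s2 : (∑ _s : S, ∑ σ₁ : Fin M, ∑ _σ₂ : Fin M,
          (if al σ₁ N ≠ al σ₁ N' then (1 : ℝ) else 0)) ≤
          Fintype.card S * (M * (M / L + 1)) := by
        have e1 : (∑ _s : S, ∑ σ₁ : Fin M, ∑ _σ₂ : Fin M,
            (if al σ₁ N ≠ al σ₁ N' then (1 : ℝ) else 0)) =
            Fintype.card S * (M *
            (((univ : Finset (Fin M)).filter fun σ : Fin M => al σ N ≠ al σ N').card : ℝ)) := by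
          have e2 : (((univ : Finset (Fin M)).filter fun σ : Fin M => al σ N ≠ al σ N').card : ℝ) =
              ∑ σ : Fin M, (if al σ N ≠ al σ N' then (1 : ℝ) else 0) := by
            rw [Finset.card_filter]
            push_cast
            rfl
          rw [e2, Finset.mul_sum, Finset.sum_const, Finset.card_univ, nsmul_eq_mul]
          congr 1
          refine Finset.sum_congr rfl fun σ _ => ?_
          rw [Finset.sum_const, Finset.card_univ, Fintype.card_fin, nsmul_eq_mul]
        rw [e1]
        refine mul_le_mul_of_nonneg_left ?_ (Nat.cast_nonneg _)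
        exact mul_le_mul_of_nonneg_left hcB hMr.le
      have s3 : (∑ s : S, ∑ σ₁ : Fin M, ∑ σ₂ : Fin M,
          (if Yw s (R N) = Yw s (R N') ∧ al σ₁ N = al σ₁ N' ∧
            wt s σ₁ σ₂ N ≠ wt s σ₁ σ₂ N' then (1 : ℝ) else 0)) ≤
          Fintype.card S * (M * (M / L + n)) := by
        have h1 : ∀ (s : S) (σ₁ : Fin M), (∑ σ₂ : Fin M,
            (if Yw s (R N) = Yw s (R N') ∧ al σ₁ N = al σ₁ N' ∧
              wt s σ₁ σ₂ N ≠ wt s σ₁ σ₂ N' then (1 : ℝ) else 0)) ≤ M / L + n := by
          intro s σ₁
          have hp0 : 0 ≤ (M : ℝ) / L + n := by positivity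
          by_cases hs : Yw s (R N) = Yw s (R N')
          · by_cases hσ : al σ₁ N = al σ₁ N'
            · have h2 := hcC s σ₁ hs hσ
              rw [Finset.card_filter] at h2
              push_cast at h2
              refine le_trans (le_of_eq ?_) h2
              refine Finset.sum_congr rfl fun σ₂ _ => ?_
              simp only [hs, hσ, true_and]
            · refine le_trans (le_of_eq ?_) hp0
              refine Finset.sum_eq_zero fun σ₂ _ => ?_
              rw [if_neg]
              exact fun h3 => hσ h3.2.1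
          · refine le_trans (le_of_eq ?_) hp0
            refine Finset.sum_eq_zero fun σ₂ _ => ?_
            rw [if_neg]
            exact fun h3 => hs h3.1
        refine (Finset.sum_le_sum fun s _ => Finset.sum_le_sum fun σ₁ _ => h1 s σ₁).trans
          (le_of_eq ?_)
        simp only [Finset.sum_const, Finset.card_univ, Fintype.card_fin, nsmul_eq_mul]
      refine (add_le_add (add_le_add s1 s2) s3).trans ?_
      rw [Fintype.card_prod, Fintype.card_prod, Fintype.card_fin]
      push_cast
      have hSr : (0 : ℝ) < Fintype.card S := by exact_mod_cast hScard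
      have hlast : κ * M ≤ M * M / L := by
        rw [le_div_iff₀ hL0]
        nlinarith only [hM]
      have e1 : 3 * (n : ℝ) / L * Fintype.card S * (M * M) + Fintype.card S * (M * (M / L + 1)) +
          Fintype.card S * (M * (M / L + n)) =
          Fintype.card S * (3 * n / L * (M * M) + 2 * (M * M / L) + κ * M) := by
        rw [hκ]
        ring
      have e2 : 3 * ((n : ℝ) + 1) / L * (Fintype.card S * (M * M)) =
          Fintype.card S * (3 * n / L * (M * M) + 3 * (M * M / L)) := by ring
      rw [e1, e2]
      refine mul_le_mul_of_nonneg_left ?_ hSr.le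
      linarith only [hlast]

open Classical in
/-- **Norm rounding, deterministic form.** For every finite law `w` of pairs of norms there is one
rounding `y` which moves every norm by at most `C L h`, and which gives the same value to the two
norms of a pair, outside the pairs at distance more than `h` and an event of probability
`3 n / L`. -/
theorem norm_rounding_law (n : ℕ) : ∃ C : ℝ, 1 ≤ C ∧ ∀ (V : Type) [AddCommGroup V] [Module ℝ V]
    [FiniteDimensional ℝ V], finrank ℝ V = n → ∀ L h : ℝ, 1 ≤ L → 1 ≤ h →
    ∀ (I : Type) [Fintype I] (w : I → ℝ) (N N' : I → Seminorm ℝ V), (∀ i, 0 ≤ w i) →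
      (∀ i, IsN (N i)) → (∀ i, IsN (N' i)) →
      ∃ y : Seminorm ℝ V → Seminorm ℝ V, (∀ N, IsN N → Dl N (y N) (C * (L * h))) ∧
        (∑ i, if y (N i) ≠ y (N' i) then w i else 0) ≤
          (∑ i, if Dl (N i) (N' i) h then 0 else w i) + 3 * n / L * ∑ i, w i := by
  obtain ⟨C, hC, H⟩ := norm_rounding n
  refine ⟨C, hC, ?_⟩
  intro V _ _ _ hV L h hL hh I _ w N N' hw hN hN'
  obtain ⟨S, hS, hcard, Y, hY1, hY2⟩ := H V hV L h hL hh
  have hne : (univ : Finset S).Nonempty := by
    rw [Finset.univ_nonempty_iff]
    exact Fintype.card_pos_iff.mp hcard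
  obtain ⟨s, -, hs⟩ := Finset.exists_le_of_sum_le hne
    (f := fun s => ∑ i, if Y s (N i) ≠ Y s (N' i) then w i else 0)
    (g := fun _ => (∑ i, if Dl (N i) (N' i) h then 0 else w i) + 3 * n / L * ∑ i, w i) (by
      rw [Finset.sum_comm, Finset.sum_const, Finset.card_univ, nsmul_eq_mul, mul_add,
        Finset.mul_sum, Finset.mul_sum, Finset.mul_sum, ← Finset.sum_add_distrib]
      refine Finset.sum_le_sum fun i _ => ?_
      have e : (∑ s : S, if Y s (N i) ≠ Y s (N' i) then w i else 0) =
          (((univ : Finset S).filter fun s => Y s (N i) ≠ Y s (N' i)).card : ℝ) * w i := by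
        rw [Finset.card_filter]
        push_cast
        rw [Finset.sum_mul]
        refine Finset.sum_congr rfl fun s _ => ?_
        split_ifs <;> simp
      rw [e]
      have hc0 : (0 : ℝ) ≤ Fintype.card S := Nat.cast_nonneg _
      have h30 : 0 ≤ 3 * (n : ℝ) / L := by positivity
      by_cases hD : Dl (N i) (N' i) h
      · rw [if_pos hD, mul_zero, zero_add]
        calc _ ≤ 3 * n / L * Fintype.card S * w i :=
              mul_le_mul_of_nonneg_right (hY2 (N i) (N' i) (hN i) (hN' i) hD) (hw i)
          _ = _ := by ring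
      · rw [if_neg hD]
        have h1 : (((univ : Finset S).filter fun s => Y s (N i) ≠ Y s (N' i)).card : ℝ) ≤
            Fintype.card S := by
          exact_mod_cast Finset.card_le_univ _
        have h2 := mul_le_mul_of_nonneg_right h1 (hw i)
        have h3 : 0 ≤ (Fintype.card S : ℝ) * (3 * n / L * w i) :=
          mul_nonneg hc0 (mul_nonneg h30 (hw i))
        linarith only [h2, h3])
  exact ⟨Y s, hY1 s, hs⟩

/-- Two norms with the same rounding are close. -/
lemma Dl.of_round {V : Type} [AddCommGroup V] [Module ℝ V] {y : Seminorm ℝ V → Seminorm ℝ V}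
    {T : ℝ} (hy : ∀ N, IsN N → Dl N (y N) T) {N N' : Seminorm ℝ V} (hN : IsN N) (hN' : IsN N')
    (h : y N = y N') : Dl N N' (2 * T) := by
  have h1 := hy N hN
  rw [h] at h1
  exact (h1.trans (hy N' hN').symm).mono (by linarith)

/-- The distance of two norms, from the values of each on an Auerbach basis of the other. -/
lemma Dl.of_bases {V : Type} [AddCommGroup V] [Module ℝ V] [FiniteDimensional ℝ V]
    {N N' : Seminorm ℝ V} {a : ℝ} {f f' : Basis (Fin (finrank ℝ V)) ℝ V}
    (hf : ∀ x i, |f.repr x i| ≤ N x) (hf' : ∀ x i, |f'.repr x i| ≤ N' x)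
    (h : ∀ i, N' (f i) ≤ Real.exp a) (h' : ∀ i, N (f' i) ≤ Real.exp a)
    (hn : 0 < finrank ℝ V) : Dl N N' (Real.log (finrank ℝ V) + a) := by
  have key : ∀ {N N' : Seminorm ℝ V} {f : Basis (Fin (finrank ℝ V)) ℝ V},
      (∀ x i, |f.repr x i| ≤ N x) → (∀ i, N' (f i) ≤ Real.exp a) → ∀ x,
        N' x ≤ Real.exp (Real.log (finrank ℝ V) + a) * N x := by
    intro N N' f hf h x
    have hn' : (0 : ℝ) < finrank ℝ V := by exact_mod_cast hn
    rw [Real.exp_add, Real.exp_log hn']
    calc N' x = N' (∑ i, f.repr x i • f i) := by rw [f.sum_repr]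
      _ ≤ ∑ i, N' (f.repr x i • f i) :=
          Finset.le_sum_of_subadditive N' (map_zero N').le (fun a b => map_add_le_add N' a b) _ _
      _ ≤ ∑ _i : Fin (finrank ℝ V), N x * Real.exp a := by
          refine Finset.sum_le_sum fun i _ => ?_
          rw [map_smul_eq_mul, Real.norm_eq_abs]
          exact mul_le_mul (hf x i) (h i) (apply_nonneg N' _) (apply_nonneg N _)
      _ = _ := by
          rw [Finset.sum_const, Finset.card_univ, Fintype.card_fin, nsmul_eq_mul]
          ring
  intro x
  exact ⟨key hf' h' x, key hf h x⟩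

open Classical in
/-- **Majority** (row MJT). Some value of `Y` is taken outside a set which is not larger than the
set of pairs with different values, divided by the number of points. -/
theorem majority {T α : Type} [Fintype T] [Nonempty T] (Y : T → α) :
    ∃ a : α, (((univ : Finset T).filter fun t => Y t ≠ a).card : ℝ) * Fintype.card T ≤
      (((univ : Finset (T × T)).filter fun p => Y p.1 ≠ Y p.2).card : ℝ) := by
  have hne : (univ : Finset T).Nonempty := Finset.univ_nonempty
  obtain ⟨t₀, -, ht₀⟩ := Finset.exists_le_of_sum_le hne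
    (f := fun t' : T => (((univ : Finset T).filter fun t => Y t ≠ Y t').card : ℝ) * Fintype.card T)
    (g := fun _ => (((univ : Finset (T × T)).filter fun p => Y p.1 ≠ Y p.2).card : ℝ)) (by
      rw [Finset.sum_const, Finset.card_univ, nsmul_eq_mul, ← Finset.sum_mul, mul_comm]
      refine mul_le_mul_of_nonneg_left (le_of_eq ?_) (Nat.cast_nonneg _)
      simp only [Finset.card_filter]
      push_cast
      rw [Fintype.sum_prod_type, Finset.sum_comm])
  exact ⟨Y t₀, ht₀⟩

end Pool.KST
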