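import Pool.Agent.H4.KAL.DER

/-!
# A thick jet which is much larger than a thin jet confines the point (row DST of K_STEP, (1.8))
-/

set_option autoImplicit false

namespace Pool.KST

open Finset Polynomial

/-- The pure inequality: if the first of the numbers `e j` is small compared with the last one,
then two consecutive ones have a large ratio. -/
theorem ratio (e : ℕ → ℝ) (ρ θ : ℝ) (hρ : 0 < ρ) (hθ : 0 < θ) (n : ℕ)
    (he : ∀ j, 0 ≤ e j) (hpos : 0 < e n) (h : e 0 ≤ θ ^ n * (ρ ^ n * e n)) :
    n = 0 ∨ ∃ j < n, e j ≤ θ * (ρ * e (j + 1)) ∧ 0 < e (j + 1) := by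
  rcases Nat.eq_zero_or_pos n with hn | hn
  · exact Or.inl hn
  right
  by_contra hcon
  push Not at hcon
  -- `θ ρ e (j+1) < e j` or `e (j+1) = 0`
  have key : ∀ j, j ≤ n → (θ * ρ) ^ j * e j ≤ e 0 ∧ (1 ≤ j → 0 < e j → (θ * ρ) ^ j * e j < e 0) := by
    intro j
    induction j with
    | zero =>
      intro _
      refine ⟨by simp, fun h1 => absurd h1 (by norm_num)⟩
    | succ j ih =>
      intro hj
      obtain ⟨i1, i2⟩ := ih (by omega)
      have hpw : 0 < (θ * ρ) ^ j := by positivity
      by_cases hz : 0 < e (j + 1)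
      · have h1 : θ * (ρ * e (j + 1)) < e j := by
          by_contra h2
          exact absurd hz (not_lt.mpr (hcon j (by omega) (not_lt.mp h2)))
        have h2 : (θ * ρ) ^ (j + 1) * e (j + 1) < (θ * ρ) ^ j * e j := by
          have e1 : (θ * ρ) ^ (j + 1) * e (j + 1) = (θ * ρ) ^ j * (θ * (ρ * e (j + 1))) := by ring
          rw [e1]
          exact mul_lt_mul_of_pos_left h1 hpw
        exact ⟨(h2.trans_le i1).le, fun _ _ => h2.trans_le i1⟩
      · have h0 : e (j + 1) = 0 := le_antisymm (not_lt.mp hz) (he _)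
        rw [h0]
        refine ⟨by rw [mul_zero]; exact he 0, fun _ h1 => absurd h1 (lt_irrefl _)⟩
  have h1 := (key n le_rfl).2 hn hpos
  rw [mul_pow] at h1
  have e1 : θ ^ n * ρ ^ n * e n = θ ^ n * (ρ ^ n * e n) := by ring
  rw [e1] at h1
  linarith

/-- **Row DST.** A finite family of polynomials `p a` of degree at most `D`, with weights `δ a`.
There is a finite set `S` of at most `|A| D ^ 2` reals such that every point at which all entries
of the thin jet (thickness `lam`) are at most `θ ^ D` times some entry of the thick jet (thickness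
`ρ`) is within `D θ ρ` of `S`. -/
theorem dst {A : Type*} [Fintype A] (p : A → ℝ[X]) (D : ℕ) (hD : 1 ≤ D) (hp : ∀ a, (p a).natDegree ≤ D)
    (δ : A → ℝ) (hδ : ∀ a, 0 < δ a) (ρ θ : ℝ) (hρ : 0 < ρ) (hθ : 0 < θ) (hθ1 : θ < 1) :
    ∃ S : Finset ℝ, S.card ≤ Fintype.card A * D ^ 2 ∧ ∀ (x : ℝ) (a₀ : A) (j₀ : ℕ),
      0 < |((derivative^[j₀]) (p a₀)).eval x| →
      (∀ a, δ a * |(p a).eval x| ≤ θ ^ D * (ρ ^ j₀ * δ a₀ * |((derivative^[j₀]) (p a₀)).eval x|)) →
      ∃ s ∈ S, |x - s| ≤ D * (θ * ρ) := by
  classical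
  -- the real parts of the roots of all derivatives
  set S : Finset ℝ := Finset.univ.biUnion fun a : A => (range D).biUnion fun j =>
    ((((derivative^[j]) (p a)).map (algebraMap ℝ ℂ)).roots.map Complex.re).toFinset with hS
  have hdeg : ∀ a j, ((derivative^[j]) (p a)).natDegree ≤ D := fun a j =>
    (natDegree_iterate_derivative (p a) j).trans ((Nat.sub_le _ _).trans (hp a))
  refine ⟨S, ?_, ?_⟩
  · refine (Finset.card_biUnion_le).trans ?_
    have h1 : ∀ a : A, ((range D).biUnion fun j =>
        ((((derivative^[j]) (p a)).map (algebraMap ℝ ℂ)).roots.map Complex.re).toFinset).card ≤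
        D ^ 2 := by
      intro a
      refine (Finset.card_biUnion_le).trans ?_
      refine (Finset.sum_le_sum fun j _ => (?_ : _ ≤ D)).trans ?_
      · refine (Multiset.toFinset_card_le _).trans ?_
        rw [Multiset.card_map]
        refine (Polynomial.card_roots' _).trans ?_
        exact (natDegree_map_le).trans (hdeg a j)
      · rw [Finset.sum_const, Finset.card_range, smul_eq_mul, sq]
    refine (Finset.sum_le_sum fun a _ => h1 a).trans ?_
    rw [Finset.sum_const, Finset.card_univ, smul_eq_mul]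
  · intro x a₀ j₀ hpos hsmall
    -- the order of the derivative is at most the degree
    have hj₀ : j₀ ≤ D := by
      by_contra h
      push Not at h
      have : (derivative^[j₀]) (p a₀) = 0 :=
        iterate_derivative_eq_zero ((hp a₀).trans_lt h)
      rw [this] at hpos
      simp at hpos
    have h0 : |(p a₀).eval x| ≤ θ ^ j₀ * (ρ ^ j₀ * |((derivative^[j₀]) (p a₀)).eval x|) := by
      have h1 := hsmall a₀
      have h2 : δ a₀ * |(p a₀).eval x| ≤
          δ a₀ * (θ ^ D * (ρ ^ j₀ * |((derivative^[j₀]) (p a₀)).eval x|)) := by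
        refine h1.trans (le_of_eq ?_)
        ring
      have h3 := le_of_mul_le_mul_left h2 (hδ a₀)
      refine h3.trans ?_
      refine mul_le_mul_of_nonneg_right ?_ (by positivity)
      exact pow_le_pow_of_le_one hθ.le hθ1.le hj₀
    rcases ratio (fun j => |((derivative^[j]) (p a₀)).eval x|) ρ θ hρ hθ j₀
      (fun j => abs_nonneg _) hpos h0 with hn | ⟨j, hj, hr, hr0⟩
    · -- impossible: the value would be smaller than itself
      subst hn
      have h1 := hsmall a₀
      have h2 : θ ^ D < 1 := pow_lt_one₀ hθ.le hθ1 (by omega)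
      have h3 : 0 < δ a₀ * |(p a₀).eval x| := mul_pos (hδ a₀) hpos
      simp only [pow_zero, one_mul, Function.iterate_zero, id_eq] at h1
      have h4 : θ ^ D * (δ a₀ * |(p a₀).eval x|) < 1 * (δ a₀ * |(p a₀).eval x|) :=
        mul_lt_mul_of_pos_right h2 h3
      linarith
    · set P := (derivative^[j]) (p a₀) with hP
      have hPd : P.derivative = (derivative^[j + 1]) (p a₀) := by
        rw [hP, Function.iterate_succ_apply']
      have hP0 : P ≠ 0 := by
        intro h
        rw [← hPd, h] at hr0
        simp at hr0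
      have hx : |P.eval x| ≤ θ * ρ * |P.derivative.eval x| := by
        rw [hPd, mul_assoc]
        exact hr
      obtain ⟨z, hz, hxz⟩ := Pool.KAL.DER.near_root D P (θ * ρ) (hdeg a₀ j) (by positivity) hP0 x hx
      refine ⟨z.re, ?_, hxz⟩
      rw [hS, Finset.mem_biUnion]
      refine ⟨a₀, Finset.mem_univ _, Finset.mem_biUnion.mpr ⟨j, Finset.mem_range.mpr (by omega), ?_⟩⟩
      rw [Multiset.mem_toFinset, Multiset.mem_map]
      exact ⟨z, Multiset.mem_toFinset.mp hz, rfl⟩

end Pool.KST
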