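import Pool.Agent.H82.KSP.MKP
import Pool.Agent.H99.FLF.FIB

/-!
# Multilinear Kakeya at the price of the label, on a good event

The label `z` of the first leaf is masked outside a good event which is a function of `z` and of
the second point `x'`. On the good event the label `z` is not too improbable given `x'`. The loss
does not contain the mean price: this makes the macro step linear.
-/

set_option autoImplicit false

namespace Pool.KS3

open Finset Real
open Pool.Agent.H49.Ent Pool.Agent.H32.Dense Pool.STK Pool.KAF Pool.KAL Pool.KST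

section abs

variable {Ω S S' T : Type} [Fintype Ω]

/-- The variable `z`, masked where `g` is false. -/
def mk1 (g : Ω → Bool) (z : Ω → S) (ω : Ω) : Option S := if g ω then some (z ω) else none

/-- A sum over the two values of a Boolean variable. -/
lemma sum_image_bool {q : Ω → ℝ} (g : Ω → Bool) (f : Bool → ℝ) :
    ∑ b ∈ univ.image g, law q g b * f b = law q g true * f true + law q g false * f false := by
  classical
  have h1 : ∑ b ∈ univ.image g, law q g b * f b = ∑ b : Bool, law q g b * f b := by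
    refine Finset.sum_subset (Finset.subset_univ _) ?_
    intro b _ hb
    have : law q g b = 0 := by
      unfold law
      refine Finset.sum_eq_zero fun ω _ => ?_
      rw [if_neg]
      intro h
      exact hb (Finset.mem_image.2 ⟨ω, Finset.mem_univ _, h⟩)
    rw [this, zero_mul]
  rw [h1, Fintype.sum_bool]

/-- Conditioning on a Boolean variable. -/
lemma CH_bool {q : Ω → ℝ} (hq : ∀ ω, 0 ≤ q ω) (X : Ω → S) (W : Ω → T) (g : Ω → Bool) :
    CH q X (fun ω => (W ω, g ω)) =
      law q g true * CH (cond q g true) X W + law q g false * CH (cond q g false) X W := by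
  classical
  rw [CH_split hq, sum_image_bool g (fun b => CH (cond q g b) X W)]

/-- The entropy of a Boolean variable. -/
lemma CH_bool_le {q : Ω → ℝ} (hq : IsLaw q) (g : Ω → Bool) (W : Ω → T) :
    CH q g W ≤ Real.log 2 := by
  classical
  have := CH_le_card hq.nonneg hq.sum_one g W (fun _ => (Finset.univ : Finset Bool))
    (fun _ _ => Finset.mem_univ _)
  refine this.trans (le_of_eq ?_)
  rw [Ex_const hq.sum_one]
  simp

/-- **Mutual information of a masked variable.** -/
lemma masked_le {q : Ω → ℝ} (hq : IsLaw q) (X : Ω → S') (z : Ω → S) (z' : Ω → T)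
    (g : Ω → Bool) (hz' : Det q X z') :
    CH q (mk1 g z) z' - CH q (mk1 g z) X ≤ Real.log 2 +
      law q g true * (CH (cond q g true) X z' - CH (cond q g true) X (fun ω => (z ω, z' ω))) := by
  classical
  have hq0 := hq.nonneg
  have hcond : ∀ b ω, 0 < cond q g b ω → 0 < q ω ∧ g ω = b := fun b ω hω =>
    (cond_pos_iff hq0 g b ω).mp hω
  -- chain rules
  have I1 : CH q (mk1 g z) X = CH q (mk1 g z) (fun ω => (X ω, z' ω)) := by
    refine CH_congr hq0 (fun _ _ _ _ h => (Prod.ext_iff.mp h).1)
      (fun _ _ _ _ h => (Prod.ext_iff.mp h).1) ?_ ?_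
    · intro v v' a b h
      have h1 : X v = X v' := h
      exact Prod.ext h1 (hz' v v' a b h1)
    · intro v v' _ _ h
      exact (Prod.ext_iff.mp h).1
  have I2 := CH_chain hq0 (mk1 g z) X z'
  have I3 := CH_chain hq0 X (mk1 g z) z'
  have I4 : CH q (fun ω => (mk1 g z ω, X ω)) z' = CH q (fun ω => (X ω, mk1 g z ω)) z' := by
    refine CH_congr hq0 ?_ ?_ (fun _ _ _ _ h => h) (fun _ _ _ _ h => h) <;>
    · intro v v' _ _ h
      simp only [Prod.mk.injEq] at h ⊢
      tauto
  -- splitting
  have I5 : CH q X (fun ω => (mk1 g z ω, z' ω)) =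
      CH q X (fun ω => ((mk1 g z ω, z' ω), g ω)) := by
    refine CH_congr hq0 (fun _ _ _ _ h => (Prod.ext_iff.mp h).1)
      (fun _ _ _ _ h => (Prod.ext_iff.mp h).1) ?_ ?_
    · intro v v' a b h
      have h1 : mk1 g z v = mk1 g z v' := (Prod.ext_iff.mp h).1
      refine Prod.ext h ?_
      simp only
      unfold mk1 at h1
      by_cases h2 : g v = true
      · by_cases h3 : g v' = true
        · rw [h2, h3]
        · rw [if_pos h2, if_neg h3] at h1
          exact absurd h1 (by simp)
      · by_cases h3 : g v' = true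
        · rw [if_neg h2, if_pos h3] at h1
          exact absurd h1 (by simp)
        · rw [Bool.not_eq_true] at h2 h3
          rw [h2, h3]
    · intro v v' _ _ h
      exact (Prod.ext_iff.mp h).1
  have I6 := CH_bool hq0 X (fun ω => (mk1 g z ω, z' ω)) g
  have I7 := CH_bool hq0 X z' g
  have I8 : law q g true * CH (cond q g true) X (fun ω => (mk1 g z ω, z' ω)) =
      law q g true * CH (cond q g true) X (fun ω => (z ω, z' ω)) := by
    congr 1
    refine CH_congr (cond_nonneg hq0 g true) (fun _ _ _ _ h => (Prod.ext_iff.mp h).1)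
      (fun _ _ _ _ h => (Prod.ext_iff.mp h).1) ?_ ?_
    · intro v v' a b h
      simp only [Prod.mk.injEq] at h ⊢
      refine ⟨?_, h.2⟩
      have h1 := h.1
      unfold mk1 at h1
      rw [if_pos (hcond true v a).2, if_pos (hcond true v' b).2] at h1
      exact Option.some.inj h1
    · intro v v' a b h
      simp only [Prod.mk.injEq] at h ⊢
      refine ⟨?_, h.2⟩
      unfold mk1
      rw [if_pos (hcond true v a).2, if_pos (hcond true v' b).2, h.1]
  have I9 : law q g false * CH (cond q g false) X (fun ω => (mk1 g z ω, z' ω)) =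
      law q g false * CH (cond q g false) X z' := by
    congr 1
    refine CH_congr (cond_nonneg hq0 g false) (fun _ _ _ _ h => (Prod.ext_iff.mp h).1)
      (fun _ _ _ _ h => (Prod.ext_iff.mp h).1) ?_ ?_
    · intro v v' _ _ h
      exact (Prod.ext_iff.mp h).2
    · intro v v' a b h
      simp only [Prod.mk.injEq]
      refine ⟨?_, h⟩
      unfold mk1
      rw [if_neg (by rw [(hcond false v a).2]; decide), if_neg (by rw [(hcond false v' b).2]; decide)]
  have I10 := CH_le_add hq0 X g z'
  have I11 : CH q X (fun ω => (g ω, z' ω)) = CH q X (fun ω => (z' ω, g ω)) := by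
    refine CH_congr hq0 (fun _ _ _ _ h => (Prod.ext_iff.mp h).1)
      (fun _ _ _ _ h => (Prod.ext_iff.mp h).1) ?_ ?_ <;>
    · intro v v' _ _ h
      simp only [Prod.mk.injEq] at h ⊢
      tauto
  have I12 := CH_bool_le hq g z'
  have r : law q g true * (CH (cond q g true) X z' - CH (cond q g true) X (fun ω => (z ω, z' ω))) =
      law q g true * CH (cond q g true) X z' -
        law q g true * CH (cond q g true) X (fun ω => (z ω, z' ω)) := by ring
  rw [r]
  linarith only [I1, I2, I3, I4, I5, I6, I7, I8, I9, I10, I11, I12]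

end abs

/-- The masked label of the first leaf. -/
def msk {Ω Ξ Z : Type} (x : Ω → Ξ) (zx : Ξ → Z) (gd : Ξ × Z → Bool) : Ω × Ω → Option Z :=
  mk1 (fun v => gd (x v.2, zx (x v.1))) (fun v => zx (x v.1))

/-- Row MKG. -/
def MKGStmt : Prop :=
  ∀ (n : ℕ) (C₀ : ℝ), 1 ≤ C₀ → ∃ C : ℝ, 0 ≤ C ∧
    ∀ (a L : ℕ) (Ω Λ Ξ Z : Type) [Fintype Ω] (p : Ω → ℝ) (lam : Ω → Λ)
      (x : Ω → Ξ) (T : Ξ → ℕ) (pos : Ξ → Option (Fin n) → ℕ) (A B : Λ → Option (Fin n) → ℝ)
      (zx : Ξ → Z) (zl : Λ → ℕ → Z) (cz : Z → Option (Fin n) → ℕ)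
      (κ γ : ℕ) (δ ψ η e₁ e₃ : ℝ) (e : Ξ → ℝ) (gd : Ξ × Z → Bool),
      StepF n a L C₀ p lam x T pos A B zx zl cz → 0 < δ → (∀ a, 0 ≤ e a) →
      NCF p lam x B δ e →
      (∑ ω, (open Classical in if Real.exp (-ψ) < e (x ω) then p ω else 0)) ≤ η →
      (∀ v, 0 < dbl p lam v → gd (x v.2, zx (x v.1)) = true →
        Real.exp (-(ψ / 2)) * law (dbl p lam) (fun v => x v.2) (x v.2) ≤
          law (dbl p lam) (fun v => (x v.2, zx (x v.1))) (x v.2, zx (x v.1))) →
      n.factorial * (3 * C₀) ^ n ≤ δ ^ n * 2 ^ γ → 1 ≤ κ →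
      L * Real.log 2 - CH p (fun ω => TS T L (x ω)) (lamS lam x T L) ≤ e₁ →
      CH p x (fun ω => (bas pos (x ω), zx (x ω))) ≤ e₃ →
      CH (dbl p lam) (msk x zx gd) (fun v => zx (x v.2)) -
          CH (dbl p lam) (msk x zx gd) (fun v => x v.2) ≤
        n * e₁ + e₃ + C * (L / κ + γ + κ + 1 + (Real.exp (-(ψ / 2)) + η) * L)

theorem mkg_thm : MKGStmt := by
  classical
  intro n C₀ hC₀
  have h3C : (1 : ℝ) ≤ 3 * C₀ := by linarith only [hC₀]
  obtain ⟨C, hC, hmkc⟩ := mkc_thm n (3 * C₀) h3C
  have hn0 : (0 : ℝ) ≤ n := Nat.cast_nonneg n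
  have hl2 : 0 ≤ Real.log 2 := Real.log_nonneg (by norm_num)
  have hl2' : Real.log 2 ≤ 1 := by
    have := Real.log_two_lt_d9
    linarith only [this]
  refine ⟨C + n + 1, by positivity, ?_⟩
  intro a L Ω Λ Ξ Z _ p lam x T pos A B zx zl cz κ γ δ ψ η e₁ e₃ e gd hF hδ he hnc hη hgd hγ hκ
    he₁ he₃
  have hS := hF.small hC₀
  have hp := hF.leaf.isLaw
  have hp0 := hp.nonneg
  set q := dbl p lam with hqdef
  have hq0 : ∀ v, 0 ≤ q v := dbl_nonneg hp0
  have m1 : Marg q p (fun v => v.1) := dbl_fst hp0
  have m2 : Marg q p (fun v => v.2) := dbl_snd hp0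
  have hq : IsLaw q := ⟨hq0, by rw [m1.sum]; exact hp.sum_one⟩
  set X' : Ω × Ω → Ξ := fun v => x v.2 with hX'
  set V : Ω × Ω → Ξ × Z := fun v => (x v.2, zx (x v.1)) with hV
  set g : Ω × Ω → Bool := fun v => gd (V v) with hg
  have hz' : Det q X' (fun v => zx (x v.2)) := by
    intro v v' _ _ h
    have h1 : x v.2 = x v'.2 := h
    simp only
    rw [h1]
  have hm := masked_le hq X' (fun v => zx (x v.1)) (fun v => zx (x v.2)) g hz'
  have hmsk : msk x zx gd = mk1 g (fun v => zx (x v.1)) := rfl
  rw [hmsk]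
  refine hm.trans ?_
  have hLκ : (0 : ℝ) ≤ L / κ := by positivity
  have hη0 : 0 ≤ η := by
    refine le_trans (Finset.sum_nonneg fun ω _ => ?_) hη
    split_ifs
    exacts [hp0 ω, le_rfl]
  have hrest : 0 ≤ (L : ℝ) / κ + γ + κ + 1 + (Real.exp (-(ψ / 2)) + η) * L := by
    have := (Real.exp_pos (-(ψ / 2))).le
    positivity
  have hκ1 : (1 : ℝ) ≤ κ := by exact_mod_cast hκ
  have hrest2 : 2 ≤ (L : ℝ) / κ + γ + κ + 1 + (Real.exp (-(ψ / 2)) + η) * L := by
    have h1 := (Real.exp_pos (-(ψ / 2))).le
    have h2 : 0 ≤ (Real.exp (-(ψ / 2)) + η) * L := by positivity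
    have h3 : (0 : ℝ) ≤ γ := Nat.cast_nonneg γ
    linarith only [hLκ, hκ1, h2]
  -- the entropies of the whole law
  have he₃0 : 0 ≤ CH p x (fun ω => (bas pos (x ω), zx (x ω))) := CH_nonneg hp0 _ _
  have htime := dbl_time2 (lam := lam) (x := x) (T := T) (L := L) hp
    (fun v => (zx (x v.1), zx (x v.2))) (by
      intro v v' _ _ h
      simp only [Prod.mk.injEq] at h
      have e2 : zx (x v.2) = zx (x v'.2) := by
        rw [hF.lab v.2, hF.lab v'.2, h.1.1, h.1.2]
      simp only
      rw [h.2, e2])
  set t : ℝ := CH q (fun v => TS T L (x v.2))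
    (fun v => (lamS lam x T L v.2, (zx (x v.1), zx (x v.2)))) with ht
  have htm : ∀ q' : Ω × Ω → ℝ, IsLaw q' → CH q' (fun v => TS T L (x v.2))
      (fun v => (lamS lam x T L v.2, (zx (x v.1), zx (x v.2)))) ≤ L * Real.log 2 := by
    intro q' hq'
    have h2 := CH_le_card hq'.nonneg hq'.sum_one (fun v => TS T L (x v.2))
      (fun v => (lamS lam x T L v.2, (zx (x v.1), zx (x v.2))))
      (fun _ => Finset.range (2 ^ L)) (by
        intro v _
        rw [Finset.mem_range]
        exact hS.T_lt v.2)
    rw [Finset.card_range] at h2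
    rw [Ex_const hq'.sum_one] at h2
    push_cast at h2
    rwa [Real.log_pow] at h2
  have he₁0 : 0 ≤ e₁ := by
    have h1 := htm q hq
    have : t ≤ L * Real.log 2 := h1
    linarith only [he₁, htime, h1]
  rcases eq_or_ne (law q g true) 0 with h0 | h0
  · rw [h0, zero_mul, add_zero]
    have h1 : 0 ≤ n * e₁ := mul_nonneg hn0 he₁0
    have h2 : (L : ℝ) / κ + γ + κ + 1 + (Real.exp (-(ψ / 2)) + η) * L ≤
        (C + n + 1) * (L / κ + γ + κ + 1 + (Real.exp (-(ψ / 2)) + η) * L) := by
      have : (1 : ℝ) ≤ C + n + 1 := by linarith only [hC]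
      exact le_mul_of_one_le_left hrest this
    linarith only [hl2', he₃, hrest2, he₃0, h1, h2]
  have hlt : 0 < law q g true := lt_of_le_of_ne (law_nonneg hq0 g true) (Ne.symm h0)
  have hlt1 : law q g true ≤ 1 := by
    have := law_le_total hq0 g true
    rwa [hq.sum_one] at this
  have hr : IsLaw (cond q g true) := ⟨cond_nonneg hq0 g true, sum_cond q g h0⟩
  set r := cond q g true with hrdef
  have hr0 := hr.nonneg
  have hrq : ∀ v, 0 < r v → 0 < q v ∧ g v = true := fun v hv => (cond_pos_iff hq0 g true v).mp hv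
  have hrv : ∀ v, g v = true → r v = q v / law q g true := by
    intro v hv
    simp only [hrdef, Pool.Agent.H49.Ent.cond]
    rw [if_pos hv]
  -- the fans given the point and the first label
  set e' : Ξ × Z → ℝ := fun b => min 1 (e b.1 * law q X' b.1 / law q V b) with he'
  have hlV : ∀ v, 0 < q v → 0 < law q V (V v) := fun v hv => law_pos hq0 V hv
  have he'0 : ∀ b, 0 ≤ e' b := by
    intro b
    refine le_min zero_le_one ?_
    exact div_nonneg (mul_nonneg (he _) (law_nonneg hq0 _ _)) (law_nonneg hq0 _ _)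
  have hfan : ∀ v, 0 < q v → ∀ u : Fin n → ℝ, (∃ i, 1 ≤ |u i|) →
      ∑ v', (if V v' = V v ∧ |∑ i, u i * BS B (lamS lam x T L v'.2) (some i)| ≤ δ then
        q v' else 0) ≤ e' (V v) * law q V (V v) := by
    intro v hv u hu
    have hpos := hlV v hv
    have h1 : ∑ v', (if V v' = V v ∧
        |∑ i, u i * BS B (lamS lam x T L v'.2) (some i)| ≤ δ then q v' else 0) ≤
        law q V (V v) := by
      unfold law
      refine Finset.sum_le_sum fun v' _ => ?_
      by_cases h : V v' = V v
      · rw [if_pos h]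
        split_ifs
        · exact le_rfl
        · exact hq0 v'
      · rw [if_neg (fun h' => h h'.1), if_neg h]
    have h2 : ∑ v', (if V v' = V v ∧
        |∑ i, u i * BS B (lamS lam x T L v'.2) (some i)| ≤ δ then q v' else 0) ≤
        e (x v.2) * law q X' (x v.2) := by
      have a1 := hnc v.2 (m2.pos hq0 hv) u hu
      have a2 : law q X' (x v.2) = law p x (x v.2) := m2.law x (x v.2)
      rw [a2]
      refine le_trans ?_ a1
      have a3 := m2.ex (fun ω => if x ω = x v.2 ∧ |∑ i, u i * B (lam ω) (some i)| ≤ δ then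
        (1 : ℝ) else 0)
      unfold Ex at a3
      simp only [mul_ite, mul_one, mul_zero] at a3
      rw [← a3]
      refine Finset.sum_le_sum fun v' _ => ?_
      by_cases h : V v' = V v ∧ |∑ i, u i * BS B (lamS lam x T L v'.2) (some i)| ≤ δ
      · rw [if_pos h]
        have h3 : x v'.2 = x v.2 := (Prod.ext_iff.mp h.1).1
        have h4 : |∑ i, u i * B (lam v'.2) (some i)| ≤ δ := h.2
        rw [if_pos ⟨h3, h4⟩]
      · rw [if_neg h]
        split_ifs
        · exact hq0 v'
        · exact le_rfl
    have h3 : e' (V v) * law q V (V v) =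
        min (law q V (V v)) (e (x v.2) * law q X' (x v.2)) := by
      simp only [he']
      rw [min_mul_of_nonneg _ _ hpos.le, one_mul, div_mul_cancel₀ _ hpos.ne']
    rw [h3]
    exact le_min h1 h2
  have hgV : ∀ v v', V v' = V v → g v' = g v := fun v v' h => by
    simp only [hg]
    rw [h]
  have hlawr : ∀ v, g v = true → law r V (V v) = law q V (V v) / law q g true := by
    intro v hv
    unfold law
    rw [Finset.sum_div]
    refine Finset.sum_congr rfl fun v' _ => ?_
    by_cases h : V v' = V v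
    · rw [if_pos h, if_pos h, hrv v' ((hgV v v' h).trans hv)]
      rfl
    · rw [if_neg h, if_neg h, zero_div]
  -- the mean
  have hmean : Ex r (fun v => e' (V v)) ≤ (Real.exp (-(ψ / 2)) + η) / law q g true := by
    have hbd : ∀ v, 0 < r v → e' (V v) ≤ Real.exp (-(ψ / 2)) +
        (if Real.exp (-ψ) < e (x v.2) then 1 else 0) := by
      intro v hv
      have h1 : e' (V v) ≤ 1 := min_le_left _ _
      have h4 : 0 ≤ Real.exp (-(ψ / 2)) := (Real.exp_pos _).le
      by_cases hb : Real.exp (-ψ) < e (x v.2)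
      · rw [if_pos hb]
        linarith only [h1, h4]
      · rw [if_neg hb, add_zero]
        push Not at hb
        refine (min_le_right _ _).trans ?_
        have h5 := hgd v (hrq v hv).1 (hrq v hv).2
        have h6 := hlV v (hrq v hv).1
        rw [div_le_iff₀ h6]
        have h7 : 0 ≤ law q X' (x v.2) := law_nonneg hq0 _ _
        have h8 : Real.exp (-ψ) = Real.exp (-(ψ / 2)) * Real.exp (-(ψ / 2)) := by
          rw [← Real.exp_add]
          congr 1
          ring
        calc e (x v.2) * law q X' (x v.2) ≤ Real.exp (-ψ) * law q X' (x v.2) :=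
              mul_le_mul_of_nonneg_right hb h7
          _ = Real.exp (-(ψ / 2)) * (Real.exp (-(ψ / 2)) * law q X' (x v.2)) := by
              rw [h8]; ring
          _ ≤ Real.exp (-(ψ / 2)) * law q V (V v) := mul_le_mul_of_nonneg_left h5 h4
    refine (Ex_mono hr0 hbd).trans ?_
    rw [Ex_add, Ex_const hr.sum_one, add_div]
    have h5 : Ex r (fun v => if Real.exp (-ψ) < e (x v.2) then (1 : ℝ) else 0) ≤
        η / law q g true := by
      have h6 : Ex q (fun v => if Real.exp (-ψ) < e (x v.2) then (1 : ℝ) else 0) ≤ η := by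
        rw [m2.ex (fun ω => if Real.exp (-ψ) < e (x ω) then (1 : ℝ) else 0)]
        unfold Ex
        simp only [mul_ite, mul_one, mul_zero]
        exact hη
      refine le_trans ?_ (div_le_div_of_nonneg_right h6 hlt.le)
      unfold Ex
      rw [Finset.sum_div]
      refine Finset.sum_le_sum fun v _ => ?_
      have h7 : r v ≤ q v / law q g true := by
        by_cases hgv : g v = true
        · rw [hrv v hgv]
        · have : r v = 0 := by
            by_contra hne
            exact hgv (hrq v (lt_of_le_of_ne (hr0 v) (Ne.symm hne))).2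
          rw [this]
          exact div_nonneg (hq0 v) hlt.le
      rw [mul_div_right_comm]
      refine mul_le_mul_of_nonneg_right h7 ?_
      dsimp only
      split_ifs
      exacts [zero_le_one, le_rfl]
    have h8 : Real.exp (-(ψ / 2)) ≤ Real.exp (-(ψ / 2)) / law q g true := by
      rw [le_div_iff₀ hlt]
      exact mul_le_of_le_one_right (Real.exp_pos _).le hlt1
    linarith only [h5, h8]
  -- multilinear Kakeya on the good event
  have key := hmkc (Ω × Ω) (Z × Z) (Λ × ℕ) (Ξ × Z) r L κ γ δ
    ((Real.exp (-(ψ / 2)) + η) / law q g true) V e' (fun v => bas (posS pos L) (x v.2))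
    (fun v => TS T L (x v.2)) (fun v => (zx (x v.1), zx (x v.2))) (fun v => lamS lam x T L v.2)
    (fun l i => AS A B zl cz a l (some i)) (fun l i => BS B l (some i)) hr
    (fun v => hS.T_lt v.2)
    (fun v v' _ _ h => by
      have h1 : x v.2 = x v'.2 := (Prod.ext_iff.mp h).1
      simp only
      rw [h1])
    (fun v v' _ _ h => by
      have h1 : x v.2 = x v'.2 := (Prod.ext_iff.mp h).1
      simp only
      rw [h1])
    (fun v v' _ _ h => by
      have h1 : x v.2 = x v'.2 := (Prod.ext_iff.mp h).1
      have h2 : zx (x v.1) = zx (x v'.1) := (Prod.ext_iff.mp h).2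
      simp only
      rw [h1, h2])
    (by
      intro v _ i
      have h1 := hS.near v.2 (some i)
      have e2 : ((2 ^ L : ℕ) : ℝ) = 2 ^ L := by push_cast; rfl
      rw [e2] at h1
      exact h1)
    (fun v i => hS.B_le v.2 (some i)) hδ he'0 hmean
    (fun v hv u hu => by
      have h1 := hfan v (hrq v hv).1 u hu
      have h2 := hlawr v (hrq v hv).2
      rw [h2, ← mul_div_assoc]
      refine le_trans (le_of_eq ?_) (div_le_div_of_nonneg_right h1 hlt.le)
      rw [Finset.sum_div]
      refine Finset.sum_congr rfl fun v' _ => ?_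
      by_cases h : V v' = V v ∧ |∑ i, u i * BS B (lamS lam x T L v'.2) (some i)| ≤ δ
      · rw [if_pos h, if_pos h]
        exact hrv v' ((hgV v v' h.1).trans (hrq v hv).2)
      · rw [if_neg h, if_neg h, zero_div]) hγ hκ
  -- the time on the good event
  have T1 : law q g true * (L * Real.log 2 - CH r (fun v => TS T L (x v.2))
      (fun v => (lamS lam x T L v.2, (zx (x v.1), zx (x v.2))))) ≤ e₁ + Real.log 2 := by
    have b1 := CH_bool hq0 (fun v => TS T L (x v.2))
      (fun v => (lamS lam x T L v.2, (zx (x v.1), zx (x v.2)))) g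
    have b2 := CH_le_add hq0 (fun v => TS T L (x v.2)) g
      (fun v => (lamS lam x T L v.2, (zx (x v.1), zx (x v.2))))
    have b3 := CH_bool_le hq g (fun v => (lamS lam x T L v.2, (zx (x v.1), zx (x v.2))))
    have b4 : CH q (fun v => TS T L (x v.2)) (fun v => (g v,
        (lamS lam x T L v.2, (zx (x v.1), zx (x v.2))))) = CH q (fun v => TS T L (x v.2))
        (fun v => ((lamS lam x T L v.2, (zx (x v.1), zx (x v.2))), g v)) := by
      refine CH_congr hq0 (fun _ _ _ _ h => (Prod.ext_iff.mp h).1)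
        (fun _ _ _ _ h => (Prod.ext_iff.mp h).1) ?_ ?_ <;>
      · intro v v' _ _ h
        have := Prod.ext_iff.mp h
        exact Prod.ext this.2 this.1
    have b5 : law q g false * CH (cond q g false) (fun v => TS T L (x v.2))
        (fun v => (lamS lam x T L v.2, (zx (x v.1), zx (x v.2)))) ≤
        law q g false * (L * Real.log 2) := by
      rcases eq_or_ne (law q g false) 0 with h1 | h1
      · rw [h1, zero_mul, zero_mul]
      · exact mul_le_mul_of_nonneg_left (htm _ ⟨cond_nonneg hq0 g false, sum_cond q g h1⟩)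
          (law_nonneg hq0 g false)
    have b6 : law q g true + law q g false = 1 := by
      have h1 := sum_law_one hq.sum_one g
      have h2 := sum_image_bool (q := q) g (fun _ => 1)
      simp only [mul_one] at h2
      rw [← h2, h1]
    have b7 : law q g true * (L * Real.log 2 - CH r (fun v => TS T L (x v.2))
        (fun v => (lamS lam x T L v.2, (zx (x v.1), zx (x v.2))))) =
        (law q g true + law q g false) * (L * Real.log 2) - law q g false * (L * Real.log 2) -
          law q g true * CH r (fun v => TS T L (x v.2))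
        (fun v => (lamS lam x T L v.2, (zx (x v.1), zx (x v.2)))) := by ring
    rw [b7, b6, one_mul]
    linarith only [he₁, htime, b1, b2, b3, b4, b5]
  -- thin leaves
  have T2 : CH r X' (fun v => zx (x v.2)) ≤ n * (L * Real.log 2) +
      CH r X' (fun v => (bas (posS pos L) (x v.2), zx (x v.2))) := by
    have a2 := CH_le_add hr0 X' (fun v => bas (posS pos L) (x v.2)) (fun v => zx (x v.2))
    have a3 : CH r (fun v => bas (posS pos L) (x v.2)) (fun v => zx (x v.2)) ≤
        n * (L * Real.log 2) := by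
      have h1 := CH_le_card hr0 hr.sum_one (fun v => bas (posS pos L) (x v.2))
        (fun v => zx (x v.2))
        (fun _ => Fintype.piFinset (fun _ : Fin n => Finset.range (2 ^ L))) (by
        intro v _
        rw [Fintype.mem_piFinset]
        intro i
        rw [Finset.mem_range]
        exact hS.pos_lt v.2 (some i))
      refine h1.trans (le_of_eq ?_)
      have h2 : (((Fintype.piFinset (fun _ : Fin n => Finset.range (2 ^ L))).card : ℕ) : ℝ) =
          (2 : ℝ) ^ (L * n) := by
        rw [Fintype.card_piFinset]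
        simp only [Finset.card_range, Finset.prod_const, Finset.card_univ, Fintype.card_fin]
        push_cast
        rw [← pow_mul]
      simp only [h2]
      rw [Ex_const hr.sum_one, Real.log_pow]
      push_cast
      ring
    linarith only [a2, a3]
  have T3 : law q g true * CH r X' (fun v => (bas (posS pos L) (x v.2), zx (x v.2))) ≤ e₃ := by
    have b1 := CH_bool hq0 X' (fun v => (bas (posS pos L) (x v.2), zx (x v.2))) g
    have b2 : CH q X' (fun v => ((bas (posS pos L) (x v.2), zx (x v.2)), g v)) ≤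
        CH q X' (fun v => (bas (posS pos L) (x v.2), zx (x v.2))) :=
      CH_mono_cond hq0 (fun _ _ _ _ h => (Prod.ext_iff.mp h).1)
    have b3 : CH q X' (fun v => (bas (posS pos L) (x v.2), zx (x v.2))) =
        CH p x (fun ω => (bas (posS pos L) (x ω), zx (x ω))) :=
      m2.CH x (fun ω => (bas (posS pos L) (x ω), zx (x ω)))
    have b4 := hF.bas_small
    have b5 : 0 ≤ law q g false * CH (cond q g false) X'
        (fun v => (bas (posS pos L) (x v.2), zx (x v.2))) :=
      mul_nonneg (law_nonneg hq0 g false) (CH_nonneg (cond_nonneg hq0 g false) _ _)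
    linarith only [he₃, b1, b2, b3, b4, b5]
  have T4 : CH r (fun v => bas (posS pos L) (x v.2)) (fun v => (zx (x v.1), zx (x v.2))) ≤
      CH r X' (fun v => (zx (x v.1), zx (x v.2))) := by
    refine CH_mono_left hr0 ?_
    intro v v' _ _ h
    have h1 : x v.2 = x v'.2 := (Prod.ext_iff.mp h).1
    simp only
    rw [h1]
  -- summing up
  set ρ := law q g true with hρ
  set K : ℝ := CH r X' (fun v => zx (x v.2)) with hK
  set K2 : ℝ := CH r X' (fun v => (zx (x v.1), zx (x v.2))) with hK2
  set K3 : ℝ := CH r (fun v => bas (posS pos L) (x v.2)) (fun v => (zx (x v.1), zx (x v.2)))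
    with hK3
  set K4 : ℝ := CH r (fun v => TS T L (x v.2))
      (fun v => (lamS lam x T L v.2, (zx (x v.1), zx (x v.2)))) with hK4
  set K5 : ℝ := CH r X' (fun v => (bas (posS pos L) (x v.2), zx (x v.2))) with hK5
  have u1 : ρ * (K - K2) ≤ ρ * (n * (L * Real.log 2) + K5 - (n * K4 -
      C * (L / κ + γ + κ + 1 + (Real.exp (-(ψ / 2)) + η) / ρ * L))) := by
    refine mul_le_mul_of_nonneg_left ?_ hlt.le
    linarith only [T4, key, T2]
  have u2 : ρ * (n * (L * Real.log 2) + K5 - (n * K4 -
      C * (L / κ + γ + κ + 1 + (Real.exp (-(ψ / 2)) + η) / ρ * L))) =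
      n * (ρ * (L * Real.log 2 - K4)) + ρ * K5 +
        C * (ρ * (L / κ + γ + κ + 1) + (Real.exp (-(ψ / 2)) + η) * L) := by
    field_simp
    ring
  rw [u2] at u1
  have u3 : (n : ℝ) * (ρ * (L * Real.log 2 - K4)) ≤ n * (e₁ + Real.log 2) :=
    mul_le_mul_of_nonneg_left T1 hn0
  have u4 : C * (ρ * (L / κ + γ + κ + 1) + (Real.exp (-(ψ / 2)) + η) * L) ≤
      C * (L / κ + γ + κ + 1 + (Real.exp (-(ψ / 2)) + η) * L) := by
    refine mul_le_mul_of_nonneg_left ?_ hC
    have : 0 ≤ (L : ℝ) / κ + γ + κ + 1 := by positivity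
    have := mul_le_of_le_one_left this hlt1
    linarith only [this]
  have u5 : (n + 1 : ℝ) * 1 ≤ (n + 1) * (L / κ + γ + κ + 1 + (Real.exp (-(ψ / 2)) + η) * L) :=
    mul_le_mul_of_nonneg_left (by linarith only [hrest2]) (by positivity)
  have u6 : (n : ℝ) * Real.log 2 ≤ n := mul_le_of_le_one_right hn0 hl2'
  have u7 : (C + n + 1) * (L / κ + γ + κ + 1 + (Real.exp (-(ψ / 2)) + η) * L) =
      C * (L / κ + γ + κ + 1 + (Real.exp (-(ψ / 2)) + η) * L) +
      (n + 1) * (L / κ + γ + κ + 1 + (Real.exp (-(ψ / 2)) + η) * L) := by ring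
  have u8 : (n : ℝ) * (e₁ + Real.log 2) = n * e₁ + n * Real.log 2 := by ring
  linarith only [hl2', T3, u1, u3, u4, u5, u6]

/-- The good event of the price: outside probability `2 pr / ψ` the label is not too improbable
given the other point. -/
theorem price_event {Ω Λ Ξ Z : Type} [Fintype Ω] {p : Ω → ℝ} (hp : IsLaw p) (lam : Ω → Λ)
    (x : Ω → Ξ) (zx : Ξ → Z) {ψ pr : ℝ} (hψ : 0 < ψ)
    (hpr : CH (dbl p lam) (fun v => zx (x v.1)) (fun v => x v.2) ≤ pr) :
    ∃ gd : Ξ × Z → Bool,
      (∀ v, 0 < dbl p lam v → gd (x v.2, zx (x v.1)) = true →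
        Real.exp (-(ψ / 2)) * law (dbl p lam) (fun v => x v.2) (x v.2) ≤
          law (dbl p lam) (fun v => (x v.2, zx (x v.1))) (x v.2, zx (x v.1))) ∧
      (∑ v, if gd (x v.2, zx (x v.1)) = true then 0 else dbl p lam v) ≤ 2 * pr / ψ := by
  classical
  have hp0 := hp.nonneg
  set q := dbl p lam with hqdef
  have hq0 : ∀ v, 0 ≤ q v := dbl_nonneg hp0
  set X' : Ω × Ω → Ξ := fun v => x v.2 with hX'
  set V : Ω × Ω → Ξ × Z := fun v => (x v.2, zx (x v.1)) with hV
  refine ⟨fun b => decide (Real.exp (-(ψ / 2)) * law q X' b.1 ≤ law q V b), ?_, ?_⟩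
  · intro v _ h
    exact of_decide_eq_true h
  have hlV : ∀ v, 0 < q v → 0 < law q V (V v) := fun v hv => law_pos hq0 V hv
  set k : Ω × Ω → ℝ := fun v => law q (fun v => (zx (x v.1), x v.2)) (zx (x v.1), x v.2) /
      law q X' (x v.2) with hk
  have hkV : ∀ v, law q (fun v => (zx (x v.1), x v.2)) (zx (x v.1), x v.2) =
      law q V (V v) := by
    intro v
    unfold law
    refine Finset.sum_congr rfl fun v' _ => ?_
    by_cases h : V v' = V v
    · rw [if_pos h, if_pos]
      have := Prod.ext_iff.mp h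
      exact Prod.ext this.2 this.1
    · rw [if_neg h, if_neg]
      intro h'
      have := Prod.ext_iff.mp h'
      exact h (Prod.ext this.2 this.1)
  have hkpos : ∀ v, 0 < q v → 0 < k v := by
    intro v hv
    simp only [hk]
    rw [hkV]
    exact div_pos (hlV v hv) (law_pos hq0 X' hv)
  have hk1 : ∀ v, 0 < q v → k v ≤ 1 := by
    intro v hv
    simp only [hk]
    rw [hkV, div_le_one (law_pos hq0 X' hv)]
    unfold law
    refine Finset.sum_le_sum fun v' _ => ?_
    by_cases h : V v' = V v
    · rw [if_pos h, if_pos (Prod.ext_iff.mp h).1]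
    · rw [if_neg h]
      split_ifs
      · exact hq0 v'
      · exact le_rfl
  have hCH : CH q (fun v => zx (x v.1)) (fun v => x v.2) =
      Ex q (fun v => -Real.log (k v)) := CH_eq_neg_sum hq0 _ _
  rw [hCH] at hpr
  rw [le_div_iff₀ hψ, Finset.sum_mul]
  have h2pr : 2 * Ex q (fun v => -Real.log (k v)) ≤ 2 * pr := by linarith only [hpr]
  refine le_trans ?_ h2pr
  unfold Ex
  rw [Finset.mul_sum]
  refine Finset.sum_le_sum fun v _ => ?_
  rcases (hq0 v).eq_or_lt with h0 | h0
  · rw [← h0]
    simp
  have h2 : 0 ≤ -Real.log (k v) := by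
    have := Real.log_nonpos (hkpos v h0).le (hk1 v h0)
    linarith only [this]
  by_cases hd : Real.exp (-(ψ / 2)) * law q X' (V v).1 ≤ law q V (V v)
  · rw [if_pos (decide_eq_true hd), zero_mul]
    positivity
  · rw [if_neg (by simpa using hd)]
    push Not at hd
    have h6 : 0 < law q X' (x v.2) := law_pos hq0 X' h0
    have h7 : k v < Real.exp (-(ψ / 2)) := by
      simp only [hk]
      rw [hkV, div_lt_iff₀ h6]
      exact hd
    have h8 := Real.log_lt_log (hkpos v h0) h7
    rw [Real.log_exp] at h8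
    have h9 : ψ ≤ 2 * (-Real.log (k v)) := by linarith only [h8]
    calc q v * ψ ≤ q v * (2 * (-Real.log (k v))) := mul_le_mul_of_nonneg_left h9 (hq0 v)
      _ = _ := by ring

end Pool.KS3
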