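import Pool.Agent.H99.KST.NRD
import Pool.Agent.H32.Dense.Split
import Pool.Agent.H90.STK.Defs

/-!
# From single polynomials to the distance of two norms (row LRN of K_STEP, end of (1.5))
-/

set_option autoImplicit false

namespace Pool.KST

open Module Finset
open Pool.Agent.H49.Ent Pool.Agent.H32.Dense Pool.STK

lemma Ex_sum' {Ω ι : Type*} [Fintype Ω] (p : Ω → ℝ) (s : Finset ι) (f : ι → Ω → ℝ) :
    Ex p (fun ω => ∑ i ∈ s, f i ω) = ∑ i ∈ s, Ex p (f i) := by
  unfold Ex
  rw [Finset.sum_comm]
  refine Finset.sum_congr rfl fun ω _ => ?_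
  rw [Finset.mul_sum]

/-- **Row LRN.** Two labels `z`, `z'` (one line), norms `N z`. If for every choice of a vector
`P z`, depending on `z`, and of an event depending on `(z, z')` the mean of
`log (N z' (P z)) - log (N z (P z))` on the event is at most `del`, and the same with `z`, `z'`
exchanged, then the mean distance of the two norms is at most `2 n del` plus `log n`. -/
theorem lrn {V : Type} [AddCommGroup V] [Module ℝ V] [FiniteDimensional ℝ V]
    (hn : 0 < finrank ℝ V) {Ω Z : Type} [Fintype Ω] {p : Ω → ℝ} (hp : IsLaw p) (z z' : Ω → Z)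
    (N N' : Z → Seminorm ℝ V) (hN : ∀ a, IsN (N a)) (hN' : ∀ a, IsN (N' a)) (del : ℝ)
    (h1 : ∀ (P : Z → V) (χ : Z → Z → Bool), (∀ a, P a ≠ 0) →
      Ex p (fun ω => if χ (z ω) (z' ω) then
        Real.log (N' (z' ω) (P (z ω))) - Real.log (N (z ω) (P (z ω))) else 0) ≤ del)
    (h2 : ∀ (P : Z → V) (χ : Z → Z → Bool), (∀ a, P a ≠ 0) →
      Ex p (fun ω => if χ (z' ω) (z ω) then
        Real.log (N (z ω) (P (z' ω))) - Real.log (N' (z' ω) (P (z' ω))) else 0) ≤ del) :
    ∃ d : Z → Z → ℝ, (∀ a b, 0 ≤ d a b) ∧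
      (∀ a b, Dl (N a) (N' b) (Real.log (finrank ℝ V) + d a b)) ∧
      Ex p (fun ω => d (z ω) (z' ω)) ≤ 2 * finrank ℝ V * del := by
  classical
  have hp0 := hp.nonneg
  choose f hf1 hf2 using fun a => auerbach V (N a) (hN a)
  choose g hg1 hg2 using fun a => auerbach V (N' a) (hN' a)
  have hpos : ∀ (M : Z → Seminorm ℝ V), (∀ a, IsN (M a)) → ∀ a (x : V), x ≠ 0 → 0 < M a x :=
    fun M hM a x hx => lt_of_le_of_ne (apply_nonneg (M a) x) (fun h => hx (hM a x h.symm))
  -- the positive parts
  set u : Z → Z → Fin (finrank ℝ V) → ℝ := fun a b i => max (Real.log (N' b (f a i))) 0 with hu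
  set v : Z → Z → Fin (finrank ℝ V) → ℝ := fun a b i => max (Real.log (N a (g b i))) 0 with hv
  have hu0 : ∀ a b i, 0 ≤ u a b i := fun a b i => le_max_right _ _
  have hv0 : ∀ a b i, 0 ≤ v a b i := fun a b i => le_max_right _ _
  have hsu : ∀ i, Ex p (fun ω => u (z ω) (z' ω) i) ≤ del := by
    intro i
    refine le_trans (Ex_mono hp0 (fun ω _ => ?_))
      (h1 (fun a => f a i) (fun a b => decide (0 ≤ Real.log (N' b (f a i)))) (fun a => (f a).ne_zero i))
    have hle : Real.log (N (z ω) (f (z ω) i)) ≤ 0 :=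
      Real.log_nonpos (apply_nonneg _ _) (hf1 (z ω) i)
    by_cases h : 0 ≤ Real.log (N' (z' ω) (f (z ω) i))
    · simp only [hu, h, decide_true, if_true]
      rw [max_eq_left h]
      linarith
    · simp only [hu, h, decide_false]
      rw [max_eq_right (not_le.mp h).le]
      simp
  have hsv : ∀ i, Ex p (fun ω => v (z ω) (z' ω) i) ≤ del := by
    intro i
    refine le_trans (Ex_mono hp0 (fun ω _ => ?_))
      (h2 (fun a => g a i) (fun a b => decide (0 ≤ Real.log (N b (g a i)))) (fun a => (g a).ne_zero i))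
    have hle : Real.log (N' (z' ω) (g (z' ω) i)) ≤ 0 :=
      Real.log_nonpos (apply_nonneg _ _) (hg1 (z' ω) i)
    by_cases h : 0 ≤ Real.log (N (z ω) (g (z' ω) i))
    · simp only [hv, h, decide_true, if_true]
      rw [max_eq_left h]
      linarith
    · simp only [hv, h, decide_false]
      rw [max_eq_right (not_le.mp h).le]
      simp
  refine ⟨fun a b => ∑ i, (u a b i + v a b i), fun a b =>
    Finset.sum_nonneg fun i _ => add_nonneg (hu0 a b i) (hv0 a b i), ?_, ?_⟩
  · intro a b
    have hle : ∀ i, u a b i + v a b i ≤ ∑ i, (u a b i + v a b i) := fun i =>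
      Finset.single_le_sum (f := fun i => u a b i + v a b i)
        (fun i _ => add_nonneg (hu0 a b i) (hv0 a b i)) (Finset.mem_univ i)
    refine Dl.of_bases (hf2 a) (hg2 b) ?_ ?_ hn
    · intro i
      have h3 := hpos N' hN' b (f a i) ((f a).ne_zero i)
      rw [← Real.log_le_iff_le_exp h3]
      have := le_max_left (Real.log (N' b (f a i))) 0
      have := hle i
      have := hv0 a b i
      linarith
    · intro i
      have h3 := hpos N hN a (g b i) ((g b).ne_zero i)
      rw [← Real.log_le_iff_le_exp h3]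
      have := le_max_left (Real.log (N a (g b i))) 0
      have := hle i
      have := hu0 a b i
      linarith
  · rw [Ex_sum']
    calc ∑ i, Ex p (fun ω => u (z ω) (z' ω) i + v (z ω) (z' ω) i)
        ≤ ∑ _i : Fin (finrank ℝ V), (del + del) := by
          refine Finset.sum_le_sum fun i _ => ?_
          rw [Ex_add]
          exact add_le_add (hsu i) (hsv i)
      _ = 2 * finrank ℝ V * del := by
          rw [Finset.sum_const, Finset.card_univ, Fintype.card_fin, nsmul_eq_mul]
          ring

/-- Markov for the distance: the two norms are at distance at most `log n + h` outside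
probability `2 n del / h`. -/
theorem lrn_markov {V : Type} [AddCommGroup V] [Module ℝ V] {Ω Z : Type} [Fintype Ω] {p : Ω → ℝ}
    (hp : IsLaw p) (z z' : Ω → Z) (N N' : Z → Seminorm ℝ V) (c D h : ℝ) (hh : 0 < h)
    (d : Z → Z → ℝ) (hd0 : ∀ a b, 0 ≤ d a b) (hd : ∀ a b, Dl (N a) (N' b) (c + d a b))
    (hD : Ex p (fun ω => d (z ω) (z' ω)) ≤ D) :
    (∑ ω, (open Classical in if Dl (N (z ω)) (N' (z' ω)) (c + h) then 0 else p ω)) ≤ D / h := by
  classical
  rw [le_div_iff₀ hh]
  refine le_trans ?_ hD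
  unfold Ex
  rw [Finset.sum_mul]
  refine Finset.sum_le_sum fun ω _ => ?_
  split_ifs with h1
  · rw [zero_mul]
    exact mul_nonneg (hp.nonneg ω) (hd0 _ _)
  · refine mul_le_mul_of_nonneg_left ?_ (hp.nonneg ω)
    by_contra h2
    push Not at h2
    exact h1 ((hd (z ω) (z' ω)).mono (by linarith))

end Pool.KST
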