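import Pool.Agent.H99.KST.DST
import Pool.Agent.H10.KAL.SVP
import Pool.Agent.H32.Dense.Split
import Pool.Agent.H90.STK.Defs

/-!
# Thin labels (row THN of K_STEP, (1.8))

`Psv P r x` is the size of the polynomial `P` on the box with radii `r i` around `x` (the sum of
the absolute values of the coefficients of `u ↦ P (x + r u)`).
-/

set_option autoImplicit false

namespace Pool.KST

open Finset
open Pool.Agent.H49.Ent Pool.Agent.H32.Dense Pool.STK Pool.KAL

section shv

open MvPolynomial

variable {σ : Type*}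

/-- The polynomial `u ↦ P (x + r u)`. -/
noncomputable def shv (P : MvPolynomial σ ℝ) (r x : σ → ℝ) : MvPolynomial σ ℝ :=
  aeval (fun i => C (x i) + C (r i) * X i) P

/-- The size of `P` on the box with radii `r i` around `x`. -/
noncomputable def Psv (P : MvPolynomial σ ℝ) (r x : σ → ℝ) : ℝ := coefSum (shv P r x)

theorem Psv_const (P : MvPolynomial σ ℝ) (h : ℝ) (x : σ → ℝ) :
    Psv P (fun _ => h) x = Psi P h x := rfl

theorem Psv_nonneg (P : MvPolynomial σ ℝ) (r x : σ → ℝ) : 0 ≤ Psv P r x := coefSum_nonneg _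

/-- Change of the scale. -/
theorem Psv_scale (P : MvPolynomial σ ℝ) (r c x : σ → ℝ) :
    Psv (aeval (fun i => C (c i) * X i) P) r x = Psv P (fun i => c i * r i) (fun i => c i * x i) := by
  unfold Psv shv
  rw [← AlgHom.comp_apply, comp_aeval]
  congr 3
  funext i
  simp only [map_mul, aeval_X, algHom_C, algebraMap_eq]
  ring

end shv

namespace THN

open MvPolynomial

variable {τ : Type*}

/-- The coefficient polynomial. -/
noncomputable def cp (a : τ →₀ ℕ) (P : Polynomial (MvPolynomial τ ℝ)) : Polynomial ℝ :=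
  P.sum fun i c => Polynomial.monomial i (coeff a c)

lemma cp_add (a : τ →₀ ℕ) (P Q : Polynomial (MvPolynomial τ ℝ)) :
    cp a (P + Q) = cp a P + cp a Q := by
  unfold cp
  rw [Polynomial.sum_add_index]
  · intro i
    simp
  · intro i b c
    simp

lemma cp_monomial (a : τ →₀ ℕ) (i : ℕ) (c : MvPolynomial τ ℝ) :
    cp a (Polynomial.monomial i c) = Polynomial.monomial i (coeff a c) := by
  unfold cp
  rw [Polynomial.sum_monomial_index]
  simp

lemma cp_coeff (a : τ →₀ ℕ) (P : Polynomial (MvPolynomial τ ℝ)) (i : ℕ) :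
    (cp a P).coeff i = coeff a (P.coeff i) := by
  induction P using Polynomial.induction_on' with
  | add p q hp hq => rw [cp_add, Polynomial.coeff_add, hp, hq, Polynomial.coeff_add, coeff_add]
  | monomial n c =>
    rw [cp_monomial, Polynomial.coeff_monomial, Polynomial.coeff_monomial]
    split_ifs <;> simp

lemma natDegree_cp (a : τ →₀ ℕ) (P : Polynomial (MvPolynomial τ ℝ)) :
    (cp a P).natDegree ≤ P.natDegree := by
  rw [Polynomial.natDegree_le_iff_coeff_eq_zero]
  intro i hi
  rw [cp_coeff, Polynomial.coeff_eq_zero_of_natDegree_lt hi, coeff_zero]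

lemma cp_hasse (a : τ →₀ ℕ) (P : Polynomial (MvPolynomial τ ℝ)) (j : ℕ) (N : ℝ) :
    coeff a ((Polynomial.hasseDeriv j P).eval (C N)) = (Polynomial.hasseDeriv j (cp a P)).eval N := by
  induction P using Polynomial.induction_on' with
  | add p q hp hq =>
    rw [map_add, Polynomial.eval_add, coeff_add, hp, hq, cp_add, map_add, Polynomial.eval_add]
  | monomial n c =>
    rw [cp_monomial, Polynomial.hasseDeriv_monomial, Polynomial.hasseDeriv_monomial,
      Polynomial.eval_monomial, Polynomial.eval_monomial]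
    rw [← map_pow, mul_comm, coeff_C_mul, ← map_natCast (C : ℝ →+* MvPolynomial τ ℝ), coeff_C_mul]
    ring

/-- The polynomial with the shift in the base directions only. -/
noncomputable def bsh (Q : MvPolynomial (Option τ) ℝ) (h y : τ → ℝ) : MvPolynomial (Option τ) ℝ :=
  aeval (fun o : Option τ => o.elim (X none) (fun i => C (y i) + C (h i) * X (some i))) Q

/-- The one-variable polynomials. -/
noncomputable def qa (Q : MvPolynomial (Option τ) ℝ) (h y : τ → ℝ) (a : τ →₀ ℕ) : Polynomial ℝ :=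
  cp a (optionEquivLeft ℝ τ (bsh Q h y))

lemma shv_eq (Q : MvPolynomial (Option τ) ℝ) (h y : τ → ℝ) (r N : ℝ) :
    optionEquivLeft ℝ τ (shv Q (fun o => o.elim r h) (fun o => o.elim N y)) =
      (optionEquivLeft ℝ τ (bsh Q h y)).comp
        (Polynomial.C (C N) + Polynomial.C (C r) * Polynomial.X) := by
  have key : ((optionEquivLeft ℝ τ).toAlgHom.toRingHom.comp
      (aeval (R := ℝ) (fun o : Option τ => (C ((o.elim N y : ℝ)) + C ((o.elim r h : ℝ)) * X o :
        MvPolynomial (Option τ) ℝ))).toRingHom) =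
      (Polynomial.compRingHom (Polynomial.C (C N) + Polynomial.C (C r) * Polynomial.X)).comp
        ((optionEquivLeft ℝ τ).toAlgHom.toRingHom.comp
          (aeval (R := ℝ) (fun o : Option τ => (o.elim (X none) (fun i => C (y i) + C (h i) * X (some i)) :
            MvPolynomial (Option τ) ℝ))).toRingHom) := by
    apply MvPolynomial.ringHom_ext
    · intro c
      simp
    · intro o
      cases o <;> simp
  have := congrArg (fun φ : MvPolynomial (Option τ) ℝ →+* Polynomial (MvPolynomial τ ℝ) => φ Q) key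
  exact this

/-- The entries of the jet. -/
lemma coeff_shv (Q : MvPolynomial (Option τ) ℝ) (h y : τ → ℝ) (r N : ℝ) (α : Option τ →₀ ℕ) :
    coeff α (shv Q (fun o => o.elim r h) (fun o => o.elim N y)) =
      r ^ (α none) * (Polynomial.hasseDeriv (α none) (qa Q h y α.some)).eval N := by
  rw [← optionEquivLeft_coeff_some_coeff_none, shv_eq]
  have e : (optionEquivLeft ℝ τ (bsh Q h y)).comp
      (Polynomial.C (C N) + Polynomial.C (C r) * Polynomial.X) =
      (Polynomial.taylor (C N) (optionEquivLeft ℝ τ (bsh Q h y))).comp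
        (Polynomial.C (C r) * Polynomial.X) := by
    rw [Polynomial.taylor_apply, Polynomial.comp_assoc]
    congr 1
    simp
    ring
  rw [e, Polynomial.comp_C_mul_X_coeff, Polynomial.taylor_coeff, ← map_pow, mul_comm, coeff_C_mul,
    cp_hasse]
  rfl

lemma totalDegree_aeval_le {σ σ' : Type*} (f : σ → MvPolynomial σ' ℝ)
    (hf : ∀ i, (f i).totalDegree ≤ 1) (P : MvPolynomial σ ℝ) :
    (aeval f P).totalDegree ≤ P.totalDegree := by
  classical
  have h1 : aeval f P = ∑ α ∈ P.support, C (coeff α P) * ∏ i ∈ α.support, (f i) ^ α i := by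
    rw [aeval_def, eval₂_eq]
    rfl
  rw [h1]
  refine totalDegree_finsetSum_le ?_
  intro α hα
  refine (totalDegree_mul _ _).trans ?_
  rw [totalDegree_C, zero_add]
  refine (totalDegree_finsetProd _ _).trans ?_
  have h2 : ∀ i ∈ α.support, ((f i) ^ α i).totalDegree ≤ α i := by
    intro i _
    refine (totalDegree_pow _ _).trans ?_
    calc α i * _ ≤ α i * 1 := Nat.mul_le_mul_left _ (hf i)
      _ = α i := mul_one _
  refine (Finset.sum_le_sum h2).trans ?_
  exact le_totalDegree hα

lemma totalDegree_lin {σ : Type*} (a b : ℝ) (i : σ) :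
    (C a + C b * X i : MvPolynomial σ ℝ).totalDegree ≤ 1 := by
  refine (totalDegree_add _ _).trans ?_
  rw [totalDegree_C]
  refine max_le (Nat.zero_le _) ?_
  refine (totalDegree_mul _ _).trans ?_
  rw [totalDegree_C, totalDegree_X]

lemma natDegree_qa {D : ℕ} (Q : MvPolynomial (Option τ) ℝ) (hQ : Q.totalDegree ≤ D) (h y : τ → ℝ)
    (a : τ →₀ ℕ) : (qa Q h y a).natDegree ≤ D := by
  unfold qa
  refine (natDegree_cp _ _).trans ?_
  rw [natDegree_optionEquivLeft]
  refine (degreeOf_le_totalDegree _ _).trans (le_trans ?_ hQ)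
  unfold bsh
  refine totalDegree_aeval_le _ (fun o => ?_) Q
  cases o with
  | none =>
    show (X none : MvPolynomial (Option τ) ℝ).totalDegree ≤ 1
    rw [totalDegree_X]
  | some i => exact totalDegree_lin _ _ _

end THN

section

open MvPolynomial THN

theorem totalDegree_shv_le {σ : Type*} (P : MvPolynomial σ ℝ) (r x : σ → ℝ) :
    (shv P r x).totalDegree ≤ P.totalDegree := by
  unfold shv
  exact totalDegree_aeval_le _ (fun i => totalDegree_lin _ _ _) P

theorem Psv_eq_box {σ : Type*} [Finite σ] (P : MvPolynomial σ ℝ) (D : ℕ) (hD : P.totalDegree ≤ D)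
    (r x : σ → ℝ) : Psv P r x = ∑ α ∈ expBox σ D, |coeff α (shv P r x)| := by
  unfold Psv
  exact coefSum_eq_box _ D ((totalDegree_shv_le P r x).trans hD)

/-- **Row THN, deterministic form.** For a polynomial of degree at most `D` there is a set of at
most `C` reals such that every point at which the thin jet is smaller than `θ ^ D / C` times the
thick jet has its passive coordinate within `D θ ρ` of this set. -/
theorem thn_det (n D : ℕ) (hD : 1 ≤ D) : ∃ K : ℕ, 1 ≤ K ∧
    ∀ (Q : MvPolynomial (Option (Fin n)) ℝ) (h y : Fin n → ℝ) (ρ θ : ℝ), Q.totalDegree ≤ D →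
      0 < ρ → 0 < θ → θ < 1 → ∃ S : Finset ℝ, S.card ≤ K ∧ ∀ N lam : ℝ,
        0 < Psv Q (fun o => o.elim ρ h) (fun o => o.elim N y) →
        K * Psv Q (fun o => o.elim lam h) (fun o => o.elim N y) ≤
          θ ^ D * Psv Q (fun o => o.elim ρ h) (fun o => o.elim N y) →
        ∃ s ∈ S, |N - s| ≤ D * (θ * ρ) := by
  classical
  set A := expBox (Option (Fin n)) D with hA
  have hA0 : 0 < A.card := Finset.card_pos.mpr ⟨0, by rw [hA, mem_expBox]; simp⟩
  refine ⟨A.card * D ^ 2, Nat.one_le_iff_ne_zero.mpr (by positivity), ?_⟩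
  intro Q h y ρ θ hQ hρ hθ hθ1
  obtain ⟨S, hS, H⟩ := dst (A := A) (fun α => qa Q h y (α : Option (Fin n) →₀ ℕ).some) D hD
    (fun α => natDegree_qa Q hQ h y _) (fun _ => 1) (fun _ => one_pos) ρ θ hρ hθ hθ1
  refine ⟨S, ?_, ?_⟩
  · rwa [Fintype.card_coe] at hS
  intro N lam hpos hsm
  set T := Psv Q (fun o => o.elim ρ h) (fun o => o.elim N y) with hT
  set t := Psv Q (fun o => o.elim lam h) (fun o => o.elim N y) with ht
  have hAr : (0 : ℝ) < A.card := by exact_mod_cast hA0
  have hDr : (1 : ℝ) ≤ D := by exact_mod_cast hD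
  -- a large entry
  obtain ⟨α₀, hα₀, hbig⟩ : ∃ α ∈ A, T / A.card ≤
      |coeff α (shv Q (fun o => o.elim ρ h) (fun o => o.elim N y))| := by
    by_contra hcon
    push Not at hcon
    have h1 := Finset.sum_lt_sum_of_nonempty ⟨0, by rw [hA, mem_expBox]; simp⟩ hcon
    rw [← Psv_eq_box Q D hQ, Finset.sum_const, nsmul_eq_mul, mul_div_cancel₀ _ hAr.ne'] at h1
    exact lt_irrefl _ h1
  set j₀ := α₀ none with hj₀
  set q₀ := qa Q h y α₀.some with hq₀
  have hfac : ((Polynomial.derivative^[j₀]) q₀).eval N =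
      (j₀.factorial : ℝ) * (Polynomial.hasseDeriv j₀ q₀).eval N := by
    have h2 := congrFun (Polynomial.factorial_smul_hasseDeriv (R := ℝ) j₀) q₀
    rw [← h2, LinearMap.smul_apply, nsmul_eq_mul, Polynomial.eval_mul, Polynomial.eval_natCast]
  have hge : |(Polynomial.hasseDeriv j₀ q₀).eval N| ≤ |((Polynomial.derivative^[j₀]) q₀).eval N| := by
    rw [hfac, abs_mul]
    have h1 : (1 : ℝ) ≤ |(j₀.factorial : ℝ)| := by
      rw [abs_of_nonneg (Nat.cast_nonneg _)]
      exact_mod_cast Nat.one_le_iff_ne_zero.mpr (Nat.factorial_ne_zero _)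
    nlinarith [abs_nonneg ((Polynomial.hasseDeriv j₀ q₀).eval N)]
  rw [coeff_shv, abs_mul, abs_of_pos (pow_pos hρ _)] at hbig
  have hbig2 : T / A.card ≤ ρ ^ j₀ * |((Polynomial.derivative^[j₀]) q₀).eval N| :=
    hbig.trans (mul_le_mul_of_nonneg_left hge (pow_pos hρ _).le)
  refine H N ⟨α₀, hα₀⟩ j₀ ?_ ?_
  · have h1 : 0 < T / A.card := div_pos hpos hAr
    have h2 := h1.trans_le hbig2
    exact pos_of_mul_pos_right h2 (pow_pos hρ _).le
  · intro α
    -- the values are entries of the thin jet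
    have h1 : |(qa Q h y (α : Option (Fin n) →₀ ℕ).some).eval N| ≤ t := by
      have h2 := abs_coeff_le (shv Q (fun o => o.elim lam h) (fun o => o.elim N y))
        ((α : Option (Fin n) →₀ ℕ).some.optionElim 0)
      rw [coeff_shv] at h2
      have e1 : ((α : Option (Fin n) →₀ ℕ).some.optionElim 0) none = 0 := by simp
      have e2 : ((α : Option (Fin n) →₀ ℕ).some.optionElim 0).some =
          (α : Option (Fin n) →₀ ℕ).some := by simp
      rw [e1, e2, pow_zero, one_mul, Polynomial.hasseDeriv_zero'] at h2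
      exact h2
    have hD2 : (1 : ℝ) ≤ (D : ℝ) ^ 2 := one_le_pow₀ hDr
    have ht0 : 0 ≤ t := Psv_nonneg _ _ _
    have h3 : (A.card : ℝ) * t ≤ θ ^ D * T := by
      refine le_trans ?_ hsm
      push_cast
      have : (A.card : ℝ) * t ≤ A.card * D ^ 2 * t := by
        have : (A.card : ℝ) * 1 ≤ A.card * D ^ 2 := mul_le_mul_of_nonneg_left hD2 hAr.le
        nlinarith
      exact this
    have h4 : t ≤ θ ^ D * (T / A.card) := by
      rw [← mul_div_assoc, le_div_iff₀ hAr, mul_comm]
      exact h3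
    rw [one_mul]
    refine h1.trans (h4.trans ?_)
    refine mul_le_mul_of_nonneg_left ?_ (pow_pos hθ _).le
    rw [mul_one]
    exact hbig2

/-- Counting with exceptional events: outside an event of probability `q` the number `X` is
within `R` of a set of at most `K` reals which depends on `c`. -/
theorem CH_le_near {Ω Γ : Type} [Fintype Ω] {p : Ω → ℝ} (hp : IsLaw p) (c : Ω → Γ) (X : Ω → ℕ)
    (M R K : ℕ) (hR : 0 < R) (hM : ∀ ω, X ω < M) (S : Γ → Finset ℝ) (hS : ∀ γ, (S γ).card ≤ K)
    (bad : Ω → Prop)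
    (H : ∀ ω, 0 < p ω → ¬ bad ω → ∃ s ∈ S (c ω), |(X ω : ℝ) - s| ≤ R) :
    CH p (fun ω => X ω / R) c ≤
      Real.log (3 * (K + 1)) + Real.log 2 +
        (∑ ω, (open Classical in if bad ω then p ω else 0)) * Real.log M := by
  classical
  have hp0 := hp.nonneg
  have hR0 : (0 : ℝ) < R := by exact_mod_cast hR
  set B : Ω → Bool := fun ω => decide (bad ω) with hB
  set F : Bool × Γ → Finset ℕ := fun b => if b.1 then range M else
    (S b.2).biUnion fun s => (Icc (⌊s / R⌋ - 1) (⌊s / R⌋ + 1)).image Int.toNat with hF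
  have hcard : ∀ γ, ((S γ).biUnion fun s =>
      (Icc (⌊s / R⌋ - 1) (⌊s / R⌋ + 1)).image Int.toNat).card ≤ 3 * K := by
    intro γ
    refine Finset.card_biUnion_le.trans ?_
    refine (Finset.sum_le_sum fun s _ => (Finset.card_image_le.trans (le_of_eq ?_) :
      _ ≤ 3)).trans ?_
    · rw [Int.card_Icc]
      have : (⌊s / (R : ℝ)⌋ + 1 + 1 - (⌊s / (R : ℝ)⌋ - 1)) = 3 := by ring
      rw [this]
      rfl
    · rw [Finset.sum_const, smul_eq_mul, mul_comm]
      exact Nat.mul_le_mul_left _ (hS γ)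
  have h1 : CH p (fun ω => X ω / R) c ≤ CH p (fun ω => X ω / R) (fun ω => (B ω, c ω)) +
      CH p B c := by
    have := CH_le_add hp0 (fun ω => X ω / R) B c
    linarith
  have h2 : CH p B c ≤ Real.log 2 := by
    have b1 := CH_le_card hp0 hp.sum_one B c (fun _ => Finset.univ)
      (fun ω _ => Finset.mem_univ _)
    rw [Ex_const hp.sum_one, Finset.card_univ, Fintype.card_bool] at b1
    exact_mod_cast b1
  have h3 := CH_le_card hp0 hp.sum_one (fun ω => X ω / R) (fun ω => (B ω, c ω)) F (by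
    intro ω hω
    by_cases hb : bad ω
    · have e : F (B ω, c ω) = range M := by simp [hF, hB, hb]
      rw [e, Finset.mem_range]
      exact (Nat.div_le_self _ _).trans_lt (hM ω)
    · have e : F (B ω, c ω) = (S (c ω)).biUnion fun s =>
          (Icc (⌊s / R⌋ - 1) (⌊s / R⌋ + 1)).image Int.toNat := by simp [hF, hB, hb]
      rw [e, Finset.mem_biUnion]
      obtain ⟨s, hs, hsd⟩ := H ω hω hb
      refine ⟨s, hs, Finset.mem_image.mpr ⟨((X ω / R : ℕ) : ℤ), ?_, Int.toNat_natCast _⟩⟩
      have e1 : ((X ω / R : ℕ) : ℤ) = ⌊(X ω : ℝ) / R⌋ := by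
        rw [← Int.natCast_floor_eq_floor (by positivity), Nat.floor_div_eq_div]
      rw [e1, Finset.mem_Icc]
      rw [abs_le] at hsd
      constructor
      · rw [Int.le_floor]
        push_cast
        have a1 := Int.floor_le (s / (R : ℝ))
        have a2 : s / R - 1 ≤ (X ω : ℝ) / R := by
          have e9 : (X ω : ℝ) / R + 1 = (X ω + R) / R := by field_simp
          rw [sub_le_iff_le_add, e9, div_le_div_iff_of_pos_right hR0]
          linarith [hsd.1]
        linarith
      · have a1 := Int.lt_floor_add_one (s / (R : ℝ))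
        have a2 : (X ω : ℝ) / R ≤ s / R + 1 := by
          have e9 : s / R + 1 = (s + R) / R := by field_simp
          rw [e9, div_le_div_iff_of_pos_right hR0]
          linarith [hsd.2]
        have a3 : ((⌊(X ω : ℝ) / R⌋ : ℤ) : ℝ) < ((⌊s / (R : ℝ)⌋ + 1 + 1 : ℤ) : ℝ) := by
          push_cast
          have := Int.floor_le ((X ω : ℝ) / R)
          linarith
        have a4 := Int.cast_lt.mp a3
        omega)
  have h4 : Ex p (fun ω => Real.log ((F (B ω, c ω)).card)) ≤ Real.log (3 * (K + 1)) +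
      (∑ ω, (if bad ω then p ω else 0)) * Real.log M := by
    have e : Real.log (3 * (K + 1)) + (∑ ω, (if bad ω then p ω else 0)) * Real.log M =
        ∑ ω, (p ω * Real.log (3 * (K + 1)) + (if bad ω then p ω else 0) * Real.log M) := by
      rw [Finset.sum_add_distrib, ← Finset.sum_mul, ← Finset.sum_mul, hp.sum_one, one_mul]
    rw [e]
    unfold Ex
    refine Finset.sum_le_sum fun ω _ => ?_
    show p ω * Real.log ((F (B ω, c ω)).card) ≤ _
    have hl : 0 ≤ Real.log (3 * ((K : ℝ) + 1)) := Real.log_nonneg (by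
      have : (0 : ℝ) ≤ K := Nat.cast_nonneg K
      linarith)
    by_cases hb : bad ω
    · have e1 : F (B ω, c ω) = range M := by simp [hF, hB, hb]
      rw [e1, Finset.card_range, if_pos hb]
      have := mul_nonneg (hp0 ω) hl
      linarith
    · have e1 : F (B ω, c ω) = (S (c ω)).biUnion fun s =>
          (Icc (⌊s / R⌋ - 1) (⌊s / R⌋ + 1)).image Int.toNat := by simp [hF, hB, hb]
      rw [e1, if_neg hb, zero_mul, add_zero]
      refine mul_le_mul_of_nonneg_left ?_ (hp0 ω)
      rcases Nat.eq_zero_or_pos ((S (c ω)).biUnion fun s =>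
          (Icc (⌊s / (R : ℝ)⌋ - 1) (⌊s / (R : ℝ)⌋ + 1)).image Int.toNat).card with h0 | h0
      · rw [h0, Nat.cast_zero, Real.log_zero]
        exact hl
      · refine Real.log_le_log (by exact_mod_cast h0) ?_
        have h5 := hcard (c ω)
        have h6 : (((S (c ω)).biUnion fun s =>
          (Icc (⌊s / (R : ℝ)⌋ - 1) (⌊s / (R : ℝ)⌋ + 1)).image Int.toNat).card : ℝ) ≤ 3 * K := by
          exact_mod_cast h5
        linarith
  linarith

/-- **Row THN, entropy form.** `c` contains the label and the base coordinates; `Q` is a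
polynomial which depends on `c`. If outside an event `bad` the thin jet of `Q` at the point is
smaller than `θ ^ D / K` times the thick jet, then, given `c`, the passive coordinate `X / M` is
known to precision `R / M ≥ D θ ρ`, up to a bounded number of values. -/
theorem thn (n D : ℕ) (hD : 1 ≤ D) : ∃ K : ℕ, 1 ≤ K ∧ ∀ (Ω Γ : Type) [Fintype Ω] (p : Ω → ℝ)
    (c : Ω → Γ) (Q : Γ → MvPolynomial (Option (Fin n)) ℝ) (h y : Γ → Fin n → ℝ)
    (ρ θ lam : Γ → ℝ) (X : Ω → ℕ) (M R : ℕ) (bad : Ω → Prop), IsLaw p → 0 < R → 0 < M →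
    (∀ ω, X ω < M) → (∀ γ, (Q γ).totalDegree ≤ D) → (∀ γ, 0 < ρ γ) → (∀ γ, 0 < θ γ) →
    (∀ γ, θ γ < 1) → (∀ γ, D * (θ γ * ρ γ) * M ≤ R) →
    (∀ ω, 0 < p ω → ¬ bad ω →
      0 < Psv (Q (c ω)) (fun o => o.elim (ρ (c ω)) (h (c ω)))
        (fun o => o.elim ((X ω : ℝ) / M) (y (c ω))) ∧
      K * Psv (Q (c ω)) (fun o => o.elim (lam (c ω)) (h (c ω)))
        (fun o => o.elim ((X ω : ℝ) / M) (y (c ω))) ≤
      (θ (c ω)) ^ D * Psv (Q (c ω)) (fun o => o.elim (ρ (c ω)) (h (c ω)))
        (fun o => o.elim ((X ω : ℝ) / M) (y (c ω)))) →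
    CH p (fun ω => X ω / R) c ≤ Real.log (3 * (K + 1)) + Real.log 2 +
      (∑ ω, (open Classical in if bad ω then p ω else 0)) * Real.log M := by
  classical
  obtain ⟨K, hK, H⟩ := thn_det n D hD
  refine ⟨K, hK, ?_⟩
  intro Ω Γ _ p c Q h y ρ θ lam X M R bad hp hR hM hX hQ hρ hθ hθ1 hR2 hgood
  have hMr : (0 : ℝ) < M := by exact_mod_cast hM
  choose S hS1 hS2 using fun γ => H (Q γ) (h γ) (y γ) (ρ γ) (θ γ) (hQ γ) (hρ γ) (hθ γ) (hθ1 γ)
  refine CH_le_near hp c X M R K hR hX (fun γ => (S γ).image fun s => s * M)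
    (fun γ => Finset.card_image_le.trans (hS1 γ)) bad ?_
  intro ω hω hb
  obtain ⟨g1, g2⟩ := hgood ω hω hb
  obtain ⟨s, hs, hd⟩ := hS2 (c ω) _ _ g1 g2
  refine ⟨s * M, Finset.mem_image_of_mem _ hs, ?_⟩
  have e : (X ω : ℝ) - s * M = ((X ω : ℝ) / M - s) * M := by field_simp
  rw [e, abs_mul, abs_of_pos hMr]
  exact (mul_le_mul_of_nonneg_right hd hMr.le).trans (hR2 (c ω))

end

end Pool.KST
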