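import Pool.Agent.H99.KST.THN

/-!
# Counting the passive coordinate with a random thickness (row CNV of K_STEP, (1.2))
-/

set_option autoImplicit false

namespace Pool.KST

open Finset
open Pool.Agent.H49.Ent Pool.Agent.H32.Dense Pool.STK Pool.KAL

/-- Monotonicity in the passive radius. -/
theorem Psv_mono_none {n : ℕ} (Q : MvPolynomial (Option (Fin n)) ℝ) (h y : Fin n → ℝ) (N : ℝ)
    {r r' : ℝ} (hr : 0 ≤ r) (hrr : r ≤ r') :
    Psv Q (fun o => o.elim r h) (fun o => o.elim N y) ≤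
      Psv Q (fun o => o.elim r' h) (fun o => o.elim N y) := by
  rw [Psv_eq_box Q _ le_rfl, Psv_eq_box Q _ le_rfl]
  refine Finset.sum_le_sum fun α _ => ?_
  rw [THN.coeff_shv, THN.coeff_shv, abs_mul, abs_mul, abs_of_nonneg (pow_nonneg hr _),
    abs_of_nonneg (pow_nonneg (hr.trans hrr) _)]
  exact mul_le_mul_of_nonneg_right (pow_le_pow_left₀ hr hrr _) (abs_nonneg _)

/-- The integers in an interval of length `2 a`. -/
lemma card_near (s a : ℝ) (ha : 0 ≤ a) :
    ((Icc ⌈s - a⌉ ⌊s + a⌋).card : ℝ) ≤ 2 * a + 1 := by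
  rw [Int.card_Icc]
  have h1 := Int.le_ceil (s - a)
  have h2 := Int.floor_le (s + a)
  have h3 : ((((⌊s + a⌋ + 1 - ⌈s - a⌉).toNat : ℕ) : ℤ) : ℝ) ≤ 2 * a + 1 := by
    rcases le_total 0 (⌊s + a⌋ + 1 - ⌈s - a⌉) with h | h
    · rw [Int.toNat_of_nonneg h]
      push_cast
      linarith
    · rw [Int.toNat_of_nonpos h]
      push_cast
      linarith
  exact_mod_cast h3

/-- **Row CNV.** Count with a random thickness. `c` contains the label and the base coordinates,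
`Q` is a polynomial which depends on `c`. If the thin jet of `Q` at the point is smaller than
`2 ^ (-D) / K` times the jet of thickness `ρ`, where `ρ` depends on the sample, then the entropy of
the passive coordinate given `c` is at most the mean of `log (ρ M)`, up to `log (m + 2) + C`. -/
theorem cnv (n D : ℕ) : ∃ (K : ℕ) (C : ℝ), 1 ≤ K ∧ 0 ≤ C ∧ ∀ (Ω Γ : Type) [Fintype Ω] (p : Ω → ℝ)
    (c : Ω → Γ) (Q : Γ → MvPolynomial (Option (Fin n)) ℝ) (h y : Γ → Fin n → ℝ) (lam : Γ → ℝ)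
    (ρ : Ω → ℝ) (X : Ω → ℕ) (m : ℕ), IsLaw p → (∀ ω, X ω < 2 ^ m) →
    (∀ γ, (Q γ).totalDegree ≤ D) → (∀ ω, 0 < ρ ω) →
    (∀ ω, 0 < p ω →
      0 < Psv (Q (c ω)) (fun o => o.elim (ρ ω) (h (c ω)))
        (fun o => o.elim ((X ω : ℝ) / 2 ^ m) (y (c ω))) ∧
      K * Psv (Q (c ω)) (fun o => o.elim (lam (c ω)) (h (c ω)))
        (fun o => o.elim ((X ω : ℝ) / 2 ^ m) (y (c ω))) ≤
      (1 / 2) ^ D * Psv (Q (c ω)) (fun o => o.elim (ρ ω) (h (c ω)))
        (fun o => o.elim ((X ω : ℝ) / 2 ^ m) (y (c ω)))) →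
    CH p X c ≤ Real.log (m + 2) + Ex p (fun ω => max 0 (Real.log (ρ ω * 2 ^ m))) + C := by
  classical
  obtain ⟨K, hK, H⟩ := thn_det n (D + 1) (by omega)
  have hKr : (1 : ℝ) ≤ K := by exact_mod_cast hK
  have hl2 : 0 < Real.log 2 := Real.log_pos (by norm_num)
  refine ⟨2 * K, Real.log (K * (D + 2)) + Real.log 2, by omega, ?_, ?_⟩
  · have : 0 ≤ Real.log (K * ((D : ℝ) + 2)) := Real.log_nonneg (by
      have : (0 : ℝ) ≤ D := Nat.cast_nonneg D
      nlinarith)
    linarith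
  intro Ω Γ _ p c Q h y lam ρ X m hp hX hQ hρ hgood
  have hp0 := hp.nonneg
  have hM : (0 : ℝ) < 2 ^ m := by positivity
  -- the rounded thickness
  have hex : ∀ ω, ∃ j : ℕ, (m ≤ j ∨ ρ ω * 2 ^ m ≤ 2 ^ j) := fun ω => ⟨m, Or.inl le_rfl⟩
  set j : Ω → ℕ := fun ω => Nat.find (hex ω) with hj
  have hjle : ∀ ω, j ω ≤ m := fun ω => Nat.find_min' (hex ω) (Or.inl le_rfl)
  have hjs : ∀ ω, m ≤ j ω ∨ ρ ω * 2 ^ m ≤ 2 ^ j ω := fun ω => Nat.find_spec (hex ω)
  have hjlog : ∀ ω, (j ω : ℝ) * Real.log 2 ≤ max 0 (Real.log (ρ ω * 2 ^ m)) + Real.log 2 := by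
    intro ω
    rcases Nat.eq_zero_or_pos (j ω) with h0 | h0
    · rw [h0, Nat.cast_zero, zero_mul]
      have := le_max_left 0 (Real.log (ρ ω * 2 ^ m))
      linarith
    · have h1 := Nat.find_min (hex ω) (m := j ω - 1) (by
        show j ω - 1 < j ω
        omega)
      push Not at h1
      have h2 : Real.log ((2 : ℝ) ^ (j ω - 1)) ≤ Real.log (ρ ω * 2 ^ m) :=
        Real.log_le_log (by positivity) h1.2.le
      rw [Real.log_pow, Nat.cast_sub h0, Nat.cast_one] at h2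
      have := le_max_right 0 (Real.log (ρ ω * 2 ^ m))
      linarith
  -- the sets
  choose S hS1 hS2 using fun (γ : Γ) (i : ℕ) => H (Q γ) (h γ) (y γ) ((2 : ℝ) ^ i / 2 ^ m) (1 / 2)
    ((hQ γ).trans (Nat.le_succ D)) (by positivity) (by norm_num) (by norm_num)
  set F : ℕ × Γ → Finset ℕ := fun b => if b.1 = m then range (2 ^ m) else
    (S b.2 b.1).biUnion fun s => (Icc ⌈s * 2 ^ m - (D + 1) / 2 * 2 ^ b.1⌉
      ⌊s * 2 ^ m + (D + 1) / 2 * 2 ^ b.1⌋).image Int.toNat with hF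
  have hmem : ∀ ω, 0 < p ω → X ω ∈ F (j ω, c ω) := by
    intro ω hω
    by_cases hjm : j ω = m
    · have e : F (j ω, c ω) = range (2 ^ m) := by simp [hF, hjm]
      rw [e, Finset.mem_range]
      exact hX ω
    · have e : F (j ω, c ω) = (S (c ω) (j ω)).biUnion fun s =>
          (Icc ⌈s * 2 ^ m - (D + 1) / 2 * 2 ^ (j ω)⌉
            ⌊s * 2 ^ m + (D + 1) / 2 * 2 ^ (j ω)⌋).image Int.toNat := by
        simp only [hF]
        rw [if_neg hjm]
      obtain ⟨g1, g2⟩ := hgood ω hω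
      have hle : ρ ω ≤ 2 ^ (j ω) / 2 ^ m := by
        rw [le_div_iff₀ hM]
        rcases hjs ω with h1 | h1
        · exact absurd (le_antisymm (hjle ω) h1) hjm
        · exact h1
      have hmono := Psv_mono_none (Q (c ω)) (h (c ω)) (y (c ω)) ((X ω : ℝ) / 2 ^ m) (hρ ω).le hle
      have hpos := g1.trans_le hmono
      obtain ⟨s, hs, hd⟩ := hS2 (c ω) (j ω) ((X ω : ℝ) / 2 ^ m) (lam (c ω)) hpos (by
        push_cast at g2
        have h3 : (2 * K : ℝ) * Psv (Q (c ω)) (fun o => o.elim (lam (c ω)) (h (c ω)))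
            (fun o => o.elim ((X ω : ℝ) / 2 ^ m) (y (c ω))) ≤
            (1 / 2) ^ D * Psv (Q (c ω)) (fun o => o.elim ((2 : ℝ) ^ (j ω) / 2 ^ m) (h (c ω)))
              (fun o => o.elim ((X ω : ℝ) / 2 ^ m) (y (c ω))) :=
          g2.trans (mul_le_mul_of_nonneg_left hmono (by positivity))
        rw [pow_succ]
        linarith)
      rw [e, Finset.mem_biUnion]
      refine ⟨s, hs, Finset.mem_image.mpr ⟨(X ω : ℤ), ?_, Int.toNat_natCast _⟩⟩
      have hd2 : |(X ω : ℝ) - s * 2 ^ m| ≤ (D + 1) / 2 * 2 ^ (j ω) := by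
        have e2 : (X ω : ℝ) - s * 2 ^ m = ((X ω : ℝ) / 2 ^ m - s) * 2 ^ m := by field_simp
        rw [e2, abs_mul, abs_of_pos hM]
        refine (mul_le_mul_of_nonneg_right hd hM.le).trans (le_of_eq ?_)
        push_cast
        field_simp
      rw [abs_le] at hd2
      rw [Finset.mem_Icc]
      constructor
      · rw [Int.ceil_le]
        push_cast
        linarith [hd2.1]
      · rw [Int.le_floor]
        push_cast
        linarith [hd2.2]
  have hcard : ∀ ω, 0 < p ω → ((F (j ω, c ω)).card : ℝ) ≤ K * (D + 2) * 2 ^ (j ω) := by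
    intro ω _
    have hD0 : (0 : ℝ) ≤ D := Nat.cast_nonneg D
    by_cases hjm : j ω = m
    · have e : F (j ω, c ω) = range (2 ^ m) := by simp [hF, hjm]
      rw [e, Finset.card_range, hjm]
      push_cast
      have : (1 : ℝ) ≤ K * (D + 2) := by nlinarith
      nlinarith
    · have e : F (j ω, c ω) = (S (c ω) (j ω)).biUnion fun s =>
          (Icc ⌈s * 2 ^ m - (D + 1) / 2 * 2 ^ (j ω)⌉
            ⌊s * 2 ^ m + (D + 1) / 2 * 2 ^ (j ω)⌋).image Int.toNat := by
        simp only [hF]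
        rw [if_neg hjm]
      rw [e]
      have h1 : ((((S (c ω) (j ω)).biUnion fun s =>
          (Icc ⌈s * 2 ^ m - (D + 1) / 2 * 2 ^ (j ω)⌉
            ⌊s * 2 ^ m + (D + 1) / 2 * 2 ^ (j ω)⌋).image Int.toNat).card : ℕ) : ℝ) ≤
          ∑ s ∈ S (c ω) (j ω), (((Icc ⌈s * 2 ^ m - (D + 1) / 2 * 2 ^ (j ω)⌉
            ⌊s * 2 ^ m + (D + 1) / 2 * 2 ^ (j ω)⌋).card : ℕ) : ℝ) := by
        have := Finset.card_biUnion_le (s := S (c ω) (j ω)) (t := fun s =>
          (Icc ⌈s * 2 ^ m - (D + 1) / 2 * 2 ^ (j ω)⌉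
            ⌊s * 2 ^ m + (D + 1) / 2 * 2 ^ (j ω)⌋).image Int.toNat)
        have h2 := this.trans (Finset.sum_le_sum fun s _ => Finset.card_image_le)
        exact_mod_cast h2
      refine h1.trans ?_
      have h3 : ∀ s ∈ S (c ω) (j ω), (((Icc ⌈s * 2 ^ m - (D + 1) / 2 * 2 ^ (j ω)⌉
            ⌊s * 2 ^ m + ((D : ℝ) + 1) / 2 * 2 ^ (j ω)⌋).card : ℕ) : ℝ) ≤
          (D + 2) * 2 ^ (j ω) := by
        intro s _
        refine (card_near _ _ (by positivity)).trans ?_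
        have : (1 : ℝ) ≤ 2 ^ (j ω) := one_le_pow₀ (by norm_num)
        nlinarith
      refine (Finset.sum_le_sum h3).trans ?_
      rw [Finset.sum_const, nsmul_eq_mul]
      have h4 : (((S (c ω) (j ω)).card : ℕ) : ℝ) ≤ K := by exact_mod_cast hS1 (c ω) (j ω)
      have h5 : 0 ≤ ((D : ℝ) + 2) * 2 ^ (j ω) := by positivity
      calc _ ≤ (K : ℝ) * ((D + 2) * 2 ^ (j ω)) := mul_le_mul_of_nonneg_right h4 h5
        _ = _ := by ring
  -- the entropies
  have h1 : CH p X c ≤ CH p X (fun ω => (j ω, c ω)) + CH p j c := by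
    have := CH_le_add hp0 X j c
    linarith
  have h2 : CH p j c ≤ Real.log (m + 2) := by
    have b1 := CH_le_card hp0 hp.sum_one j c (fun _ => range (m + 1))
      (fun ω _ => Finset.mem_range.2 (Nat.lt_succ_of_le (hjle ω)))
    rw [Ex_const hp.sum_one, Finset.card_range] at b1
    refine b1.trans (Real.log_le_log (by positivity) ?_)
    push_cast
    linarith
  have h3 := CH_le_card hp0 hp.sum_one X (fun ω => (j ω, c ω)) F hmem
  have h4 : Ex p (fun ω => Real.log ((F (j ω, c ω)).card)) ≤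
      Ex p (fun ω => (Real.log (K * (D + 2)) + Real.log 2) +
        max 0 (Real.log (ρ ω * 2 ^ m))) := by
    refine Ex_mono hp0 fun ω hω => ?_
    have hc := hcard ω hω
    have hpos : (0 : ℝ) < (F (j ω, c ω)).card := by
      exact_mod_cast Finset.card_pos.mpr ⟨_, hmem ω hω⟩
    have hKD : (0 : ℝ) < K * (D + 2) := by positivity
    refine (Real.log_le_log hpos hc).trans ?_
    rw [Real.log_mul hKD.ne' (by positivity), Real.log_pow]
    have := hjlog ω
    linarith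
  rw [Ex_add, Ex_const hp.sum_one] at h4
  linarith

end Pool.KST
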