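import Pool.Agent.H99.KST.LRN

/-!
# From single polynomials to the distance of two norms, on a good event

The means are taken over the good events only (`G₁` for the pair `(z, z')`, `G₂` for the pair
`(z', z)`). This is what makes the macro step linear.
-/

set_option autoImplicit false

namespace Pool.KST

open Module Finset
open Pool.Agent.H49.Ent Pool.Agent.H32.Dense Pool.STK

/-- **Row LRN on good events.** -/
theorem lrn_on {V : Type} [AddCommGroup V] [Module ℝ V] [FiniteDimensional ℝ V]
    (hn : 0 < finrank ℝ V) {Ω Z : Type} [Fintype Ω] {p : Ω → ℝ} (hp : IsLaw p) (z z' : Ω → Z)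
    (G₁ G₂ : Ω → Prop)
    (N N' : Z → Seminorm ℝ V) (hN : ∀ a, IsN (N a)) (hN' : ∀ a, IsN (N' a)) (del : ℝ)
    (h1 : ∀ (P : Z → V) (χ : Z → Z → Bool), (∀ a, P a ≠ 0) →
      Ex p (fun ω => open Classical in if G₁ ω ∧ χ (z ω) (z' ω) = true then
        Real.log (N' (z' ω) (P (z ω))) - Real.log (N (z ω) (P (z ω))) else 0) ≤ del)
    (h2 : ∀ (P : Z → V) (χ : Z → Z → Bool), (∀ a, P a ≠ 0) →
      Ex p (fun ω => open Classical in if G₂ ω ∧ χ (z' ω) (z ω) = true then
        Real.log (N (z ω) (P (z' ω))) - Real.log (N' (z' ω) (P (z' ω))) else 0) ≤ del) :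
    ∃ d : Z → Z → ℝ, (∀ a b, 0 ≤ d a b) ∧
      (∀ a b, Dl (N a) (N' b) (Real.log (finrank ℝ V) + d a b)) ∧
      Ex p (fun ω => open Classical in if G₁ ω ∧ G₂ ω then d (z ω) (z' ω) else 0) ≤
        2 * finrank ℝ V * del := by
  classical
  have hp0 := hp.nonneg
  choose f hf1 hf2 using fun a => auerbach V (N a) (hN a)
  choose g hg1 hg2 using fun a => auerbach V (N' a) (hN' a)
  have hpos : ∀ (M : Z → Seminorm ℝ V), (∀ a, IsN (M a)) → ∀ a (x : V), x ≠ 0 → 0 < M a x :=
    fun M hM a x hx => lt_of_le_of_ne (apply_nonneg (M a) x) (fun h => hx (hM a x h.symm))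
  -- the positive parts
  set u : Z → Z → Fin (finrank ℝ V) → ℝ := fun a b i => max (Real.log (N' b (f a i))) 0 with hu
  set v : Z → Z → Fin (finrank ℝ V) → ℝ := fun a b i => max (Real.log (N a (g b i))) 0 with hv
  have hu0 : ∀ a b i, 0 ≤ u a b i := fun a b i => le_max_right _ _
  have hv0 : ∀ a b i, 0 ≤ v a b i := fun a b i => le_max_right _ _
  have hsu : ∀ i, Ex p (fun ω => if G₁ ω then u (z ω) (z' ω) i else 0) ≤ del := by
    intro i
    refine le_trans (Ex_mono hp0 (fun ω _ => ?_))
      (h1 (fun a => f a i) (fun a b => decide (0 ≤ Real.log (N' b (f a i)))) (fun a => (f a).ne_zero i))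
    have hle : Real.log (N (z ω) (f (z ω) i)) ≤ 0 :=
      Real.log_nonpos (apply_nonneg _ _) (hf1 (z ω) i)
    by_cases hG : G₁ ω
    · by_cases h : 0 ≤ Real.log (N' (z' ω) (f (z ω) i))
      · simp only [hG, hu, h, decide_true, if_true, and_self]
        rw [max_eq_left h]
        linarith
      · simp only [hG, hu, h, decide_false, if_true]
        rw [max_eq_right (not_le.mp h).le]
        simp
    · simp [hG]
  have hsv : ∀ i, Ex p (fun ω => if G₂ ω then v (z ω) (z' ω) i else 0) ≤ del := by
    intro i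
    refine le_trans (Ex_mono hp0 (fun ω _ => ?_))
      (h2 (fun a => g a i) (fun a b => decide (0 ≤ Real.log (N b (g a i)))) (fun a => (g a).ne_zero i))
    have hle : Real.log (N' (z' ω) (g (z' ω) i)) ≤ 0 :=
      Real.log_nonpos (apply_nonneg _ _) (hg1 (z' ω) i)
    by_cases hG : G₂ ω
    · by_cases h : 0 ≤ Real.log (N (z ω) (g (z' ω) i))
      · simp only [hG, hv, h, decide_true, if_true, and_self]
        rw [max_eq_left h]
        linarith
      · simp only [hG, hv, h, decide_false, if_true]
        rw [max_eq_right (not_le.mp h).le]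
        simp
    · simp [hG]
  refine ⟨fun a b => ∑ i, (u a b i + v a b i), fun a b =>
    Finset.sum_nonneg fun i _ => add_nonneg (hu0 a b i) (hv0 a b i), ?_, ?_⟩
  · intro a b
    have hle : ∀ i, u a b i + v a b i ≤ ∑ i, (u a b i + v a b i) := fun i =>
      Finset.single_le_sum (f := fun i => u a b i + v a b i)
        (fun i _ => add_nonneg (hu0 a b i) (hv0 a b i)) (Finset.mem_univ i)
    refine Dl.of_bases (hf2 a) (hg2 b) ?_ ?_ hn
    · intro i
      have h3 := hpos N' hN' b (f a i) ((f a).ne_zero i)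
      rw [← Real.log_le_iff_le_exp h3]
      have := le_max_left (Real.log (N' b (f a i))) 0
      have := hle i
      have := hv0 a b i
      linarith
    · intro i
      have h3 := hpos N hN a (g b i) ((g b).ne_zero i)
      rw [← Real.log_le_iff_le_exp h3]
      have := le_max_left (Real.log (N a (g b i))) 0
      have := hle i
      have := hu0 a b i
      linarith
  · have e0 : Ex p (fun ω => if G₁ ω ∧ G₂ ω then ∑ i, (u (z ω) (z' ω) i + v (z ω) (z' ω) i)
        else 0) ≤ Ex p (fun ω => ∑ i, ((if G₁ ω then u (z ω) (z' ω) i else 0) +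
          (if G₂ ω then v (z ω) (z' ω) i else 0))) := by
      refine Ex_mono hp0 fun ω _ => ?_
      by_cases hG : G₁ ω ∧ G₂ ω
      · simp only [hG, and_self, if_true, le_refl]
      · rw [if_neg hG]
        refine Finset.sum_nonneg fun i _ => add_nonneg ?_ ?_
        · split_ifs
          exacts [hu0 _ _ _, le_rfl]
        · split_ifs
          exacts [hv0 _ _ _, le_rfl]
    refine e0.trans ?_
    rw [Ex_sum']
    calc ∑ i, Ex p (fun ω => (if G₁ ω then u (z ω) (z' ω) i else 0) +
          (if G₂ ω then v (z ω) (z' ω) i else 0))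
        ≤ ∑ _i : Fin (finrank ℝ V), (del + del) := by
          refine Finset.sum_le_sum fun i _ => ?_
          rw [Ex_add]
          exact add_le_add (hsu i) (hsv i)
      _ = 2 * finrank ℝ V * del := by
          rw [Finset.sum_const, Finset.card_univ, Fintype.card_fin, nsmul_eq_mul]
          ring

/-- Markov for the distance on a good event. -/
theorem lrn_on_markov {V : Type} [AddCommGroup V] [Module ℝ V] {Ω Z : Type} [Fintype Ω]
    {p : Ω → ℝ} (hp : IsLaw p) (z z' : Ω → Z) (G : Ω → Prop) (N N' : Z → Seminorm ℝ V)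
    (c D h : ℝ) (hh : 0 < h) (d : Z → Z → ℝ) (hd0 : ∀ a b, 0 ≤ d a b)
    (hd : ∀ a b, Dl (N a) (N' b) (c + d a b))
    (hD : Ex p (fun ω => open Classical in if G ω then d (z ω) (z' ω) else 0) ≤ D) :
    (∑ ω, (open Classical in if Dl (N (z ω)) (N' (z' ω)) (c + h) then 0 else p ω)) ≤
      D / h + ∑ ω, (open Classical in if G ω then 0 else p ω) := by
  classical
  have h1 : (∑ ω, (if Dl (N (z ω)) (N' (z' ω)) (c + h) then 0 else p ω)) ≤
      (∑ ω, p ω * ((if G ω then d (z ω) (z' ω) else 0) / h)) +
        ∑ ω, (if G ω then 0 else p ω) := by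
    rw [← Finset.sum_add_distrib]
    refine Finset.sum_le_sum fun ω _ => ?_
    have hpω := hp.nonneg ω
    by_cases hG : G ω
    · simp only [hG, if_true, add_zero]
      split_ifs with h1
      · exact mul_nonneg hpω (div_nonneg (hd0 _ _) hh.le)
      · have h2 : h ≤ d (z ω) (z' ω) := by
          by_contra h2
          push Not at h2
          exact h1 ((hd (z ω) (z' ω)).mono (by linarith))
        calc p ω = p ω * 1 := (mul_one _).symm
          _ ≤ p ω * (d (z ω) (z' ω) / h) := by
              refine mul_le_mul_of_nonneg_left ?_ hpω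
              rwa [le_div_iff₀ hh, one_mul]
    · simp only [hG, if_false, zero_div, mul_zero, zero_add]
      split_ifs
      exacts [hpω, le_rfl]
  refine h1.trans ?_
  have h2 : (∑ ω, p ω * ((if G ω then d (z ω) (z' ω) else 0) / h)) =
      Ex p (fun ω => if G ω then d (z ω) (z' ω) else 0) / h := by
    unfold Ex
    rw [Finset.sum_div]
    refine Finset.sum_congr rfl fun ω _ => ?_
    ring
  rw [h2]
  have h3 := div_le_div_of_nonneg_right hD hh.le
  linarith

end Pool.KST
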