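import Mathlib

/-!
# Auerbach bases (row AUB of K_STEP)
-/

set_option autoImplicit false

namespace Pool.KST

open Module

/-- Auerbach basis of a finite dimensional normed space. -/
theorem auerbach_normed (V : Type*) [NormedAddCommGroup V] [NormedSpace ℝ V]
    [FiniteDimensional ℝ V] :
    ∃ f : Basis (Fin (finrank ℝ V)) ℝ V, (∀ i, ‖f i‖ ≤ 1) ∧ ∀ x i, |f.repr x i| ≤ ‖x‖ := by
  classical
  set n := finrank ℝ V with hn
  let b : Basis (Fin n) ℝ V := finBasis ℝ V
  have hcont : Continuous fun v : Fin n → V => |b.det v| := by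
    have h1 : ∀ v : Fin n → V, b.det v = (b.toMatrix v).det := fun v => b.det_apply v
    simp only [h1]
    refine continuous_abs.comp (Continuous.matrix_det ?_)
    refine continuous_pi fun i => continuous_pi fun j => ?_
    have h2 : Continuous fun v : Fin n → V => b.coord i (v j) :=
      (LinearMap.continuous_of_finiteDimensional (b.coord i)).comp (continuous_apply j)
    exact h2
  obtain ⟨f, hf, hmax⟩ := (isCompact_closedBall (0 : Fin n → V) 1).exists_isMaxOn
    ⟨0, Metric.mem_closedBall_self zero_le_one⟩ hcont.continuousOn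
  have hfn : ∀ i, ‖f i‖ ≤ 1 := by
    intro i
    have h1 : ‖f‖ ≤ 1 := by simpa using hf
    exact (norm_le_pi_norm f i).trans h1
  have hmem : ∀ v : Fin n → V, (∀ i, ‖v i‖ ≤ 1) → v ∈ Metric.closedBall (0 : Fin n → V) 1 := by
    intro v hv
    rw [mem_closedBall_zero_iff, pi_norm_le_iff_of_nonneg zero_le_one]
    exact hv
  -- the maximum is positive
  have hpos : 0 < |b.det f| := by
    have hb : ∀ i, 0 < ‖b i‖ := fun i => norm_pos_iff.mpr (b.ne_zero i)
    have h1 : |b.det fun i => (‖b i‖⁻¹ : ℝ) • b i| ≤ |b.det f| := hmax (hmem _ fun i => by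
      rw [norm_smul, norm_inv, norm_norm, inv_mul_cancel₀ (hb i).ne'])
    have h2 : b.det (fun i => (‖b i‖⁻¹ : ℝ) • b i) = (∏ i, ‖b i‖⁻¹) * b.det b := by
      rw [b.det.map_smul_univ (fun i => (‖b i‖⁻¹ : ℝ)) b, smul_eq_mul]
    rw [h2, b.det_self, mul_one] at h1
    have h3 : 0 < |∏ i, ‖b i‖⁻¹| := abs_pos.mpr (Finset.prod_ne_zero_iff.mpr fun i _ =>
      inv_ne_zero (hb i).ne')
    linarith
  have hne : b.det f ≠ 0 := abs_pos.mp hpos
  have hbasis := (Module.Basis.is_basis_iff_det b).mpr (isUnit_iff_ne_zero.mpr hne)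
  let g : Basis (Fin n) ℝ V := Basis.mk hbasis.1 hbasis.2.ge
  have hg : ∀ i, g i = f i := fun i => by
    change Basis.mk hbasis.1 hbasis.2.ge i = f i
    rw [Basis.mk_apply]
  refine ⟨g, fun i => by rw [hg]; exact hfn i, fun x i => ?_⟩
  · rcases eq_or_ne x 0 with hx | hx
    · subst hx
      simp
    have hx0 : 0 < ‖x‖ := norm_pos_iff.mpr hx
    -- Cramer's rule
    have hdet : b.det (Function.update f i x) = g.repr x i * b.det f := by
      have e : x = ∑ j, g.repr x j • f j := by
        conv_lhs => rw [← g.sum_repr x]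
        exact Finset.sum_congr rfl fun j _ => by rw [hg]
      conv_lhs => rw [e]
      rw [b.det.map_update_sum]
      rw [Finset.sum_eq_single i]
      · rw [b.det.map_update_smul, Function.update_eq_self, smul_eq_mul]
      · intro j _ hj
        rw [b.det.map_update_smul, b.det.map_update_self f (Ne.symm hj), smul_zero]
      · intro h
        exact absurd (Finset.mem_univ i) h
    have h1 : |b.det (Function.update f i ((‖x‖⁻¹ : ℝ) • x))| ≤ |b.det f| := hmax (hmem _ fun j => by
      rcases eq_or_ne j i with e | e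
      · subst e
        rw [Function.update_self, norm_smul, norm_inv, norm_norm, inv_mul_cancel₀ hx0.ne']
      · rw [Function.update_of_ne e]
        exact hfn j)
    rw [b.det.map_update_smul, smul_eq_mul, hdet, abs_mul, abs_mul, abs_inv, abs_norm] at h1
    have h2 : ‖x‖⁻¹ * |g.repr x i| ≤ 1 := by
      have h3 : ‖x‖⁻¹ * |g.repr x i| * |b.det f| ≤ 1 * |b.det f| := by
        rw [one_mul, mul_assoc]
        exact h1
      exact le_of_mul_le_mul_right h3 hpos
    calc |g.repr x i| = ‖x‖ * (‖x‖⁻¹ * |g.repr x i|) := by field_simp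
      _ ≤ ‖x‖ * 1 := mul_le_mul_of_nonneg_left h2 hx0.le
      _ = ‖x‖ := mul_one _

/-- **Row AUB.** Auerbach basis of a norm on a finite dimensional space, given as a seminorm. -/
theorem auerbach (V : Type*) [AddCommGroup V] [Module ℝ V] [FiniteDimensional ℝ V]
    (N : Seminorm ℝ V) (hN : ∀ x, N x = 0 → x = 0) :
    ∃ f : Basis (Fin (finrank ℝ V)) ℝ V, (∀ i, N (f i) ≤ 1) ∧ ∀ x i, |f.repr x i| ≤ N x := by
  let g : AddGroupNorm V :=
    { N.toAddGroupSeminorm with eq_zero_of_map_eq_zero' := fun x hx => hN x hx }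
  let _ : NormedAddCommGroup V := g.toNormedAddCommGroup
  have hn : ∀ x : V, ‖x‖ = N x := fun x => rfl
  let _ : NormedSpace ℝ V :=
    { norm_smul_le := fun a x => by
        rw [hn, hn, map_smul_eq_mul] }
  exact auerbach_normed V

/-- All vectors at once: a seminorm is controlled by its values on an Auerbach basis of another
norm. -/
theorem auerbach_ratio (V : Type*) [AddCommGroup V] [Module ℝ V] [FiniteDimensional ℝ V]
    (N : Seminorm ℝ V) (hN : ∀ x, N x = 0 → x = 0) :
    ∃ f : Basis (Fin (finrank ℝ V)) ℝ V, (∀ i, N (f i) ≤ 1) ∧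
      ∀ N' : Seminorm ℝ V, ∀ x, N' x ≤ (∑ i, N' (f i)) * N x := by
  obtain ⟨f, hf, h⟩ := auerbach V N hN
  refine ⟨f, hf, fun N' x => ?_⟩
  have h0 : ∀ i, 0 ≤ N' (f i) := fun i => apply_nonneg N' _
  calc N' x = N' (∑ i, f.repr x i • f i) := by rw [f.sum_repr]
    _ ≤ ∑ i, N' (f.repr x i • f i) := by
        refine Finset.le_sum_of_subadditive N' (map_zero N').le (fun a b => map_add_le_add N' a b)
          _ _
    _ = ∑ i, |f.repr x i| * N' (f i) := by
        refine Finset.sum_congr rfl fun i _ => ?_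
        rw [map_smul_eq_mul, Real.norm_eq_abs]
    _ ≤ ∑ i, N x * N' (f i) := Finset.sum_le_sum fun i _ =>
        mul_le_mul_of_nonneg_right (h x i) (h0 i)
    _ = (∑ i, N' (f i)) * N x := by rw [← Finset.mul_sum, mul_comm]

end Pool.KST
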